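import Pool.Agent.PT44.Main
import Pool.Agent.KN.Core

/-! The size bound for circuits over one slice of the cube, from the core theorem. -/

namespace Pool.Agent.LP44

open Pool.Agent.JT hiding paste
open Pool.Agent.SemRO
open Pool.Agent.PT44
open Pool.Agent.RK44 (used used_card out_used)

variable {m N : ℕ}

/-- the core theorem in the form used here -/
theorem core' (k : ℕ) : ∃ (R : ℕ) (ε : ℝ) (n0 : ℕ), 2 ≤ R ∧ 0 < ε ∧ ∀ n, n0 ≤ n → Core k R ε n := by
  obtain ⟨R, ε, n0, h1, h2, h3⟩ := Pool.Agent.KN.core k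
  refine ⟨R, ε, n0, h1, h2, fun n hn W c F L a1 a2 a3 a4 a5 a6 => ?_⟩
  exact h3 n hn W c F L a1 a2 (fun z hz z' hz' j => a3 j z hz z' hz') a4 a5 a6

open Classical in
/-- over one slice few inputs have short justifications -/
theorem slice_count {k R : ℕ} {ε : ℝ} (Y : Finset (Fin N)) (hR2 : 2 ≤ R) (hRn : R ≤ Y.card)
    (hcore : Core (4 * k + 4) R ε Y.card) (C : Circuit m) (f : Fin m → (Fin N → Bool) → Bool)
    (W : Fin m → Finset (Fin N))
    (hW : ∀ j x y, (∀ i, i ∉ Y ∨ i ∈ W j → x i = y i) → f j x = f j y)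
    (hWc : ∀ j, (W j ∩ Y).card * R ≤ Y.card) {F : Set (Fin Y.card → Bool)} {t : ℕ}
    (hF : RectFree F t) (ht : (t : ℝ) ≤ Real.exp (ε * Y.card)) (b : {i // i ∉ Y} → Bool)
    (hs : ∀ x, C.eval (fun j => f j (paste Y b x)) = true → x ∈ F)
    (G : Finset (Fin Y.card → Bool))
    (hG : ∀ x ∈ G, ∃ l, C.Just (fun j => f j (paste Y b x)) C.out true l ∧
      (l.map (fun j => (W j ∩ Y).card)).sum ≤ k * Y.card) :
    (G.card : ℝ) ≤ (4 * C.size + 2) ^ R * Real.exp (Y.card * Real.log 2 - ε * Y.card) := by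
  have hW' : ∀ j x y, (∀ i, i ∉ Y ∨ i ∈ W j ∩ Y → x i = y i) → f j x = f j y := by
    intro j x y hxy
    apply hW
    rintro i (hi | hi)
    · exact hxy i (Or.inl hi)
    · by_cases hiY : i ∈ Y
      · exact hxy i (Or.inr (Finset.mem_inter.2 ⟨hi, hiY⟩))
      · exact hxy i (Or.inl hiY)
  have h1 := rs_count hR2 hRn hcore (toRS C f Y (fun j => W j ∩ Y) hW' b) F (by
        intro q
        refine (Nat.mul_le_mul_right _ (toRS_vars q)).trans ?_
        rcases q with ⟨⟨j | g, b⟩, hq⟩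
        · exact hWc j
        · simp) (by
        rintro z ⟨l, hl⟩
        exact hs _ (toRS_sound hl)) hF ht G (by
        intro x hx
        obtain ⟨l, h1, h2⟩ := hG _ hx
        obtain ⟨l', h3, h4⟩ := toRS_complete (W := fun j => W j ∩ Y) (hW := hW') h1
          (out_used C true)
        exact ⟨l', h3, h4.trans h2⟩)
  refine h1.trans ?_
  apply mul_le_mul_of_nonneg_right _ (Real.exp_pos _).le
  apply pow_le_pow_left₀ (Nat.cast_nonneg _)
  rw [Fintype.card_coe]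
  exact_mod_cast used_card C

/-- the size bound over a dense slice -/
theorem size_step {k R : ℕ} {ε : ℝ} (Y : Finset (Fin N)) (hR2 : 2 ≤ R) (hRn : R ≤ Y.card)
    (hcore : Core (4 * k + 4) R ε Y.card) (C : Circuit m) (f : Fin m → (Fin N → Bool) → Bool)
    (W : Fin m → Finset (Fin N))
    (hW : ∀ j x y, (∀ i, i ∉ Y ∨ i ∈ W j → x i = y i) → f j x = f j y)
    (hWc : ∀ j, (W j ∩ Y).card * R ≤ Y.card) {F : Set (Fin Y.card → Bool)} {t : ℕ}
    (hF : RectFree F t) (ht : (t : ℝ) ≤ Real.exp (ε * Y.card)) (b : {i // i ∉ Y} → Bool)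
    (hs : ∀ x, C.eval (fun j => f j (paste Y b x)) = true → x ∈ F)
    (G : Finset (Fin Y.card → Bool))
    (hG : ∀ x ∈ G, ∃ l, C.Just (fun j => f j (paste Y b x)) C.out true l ∧
      (l.map (fun j => (W j ∩ Y).card)).sum ≤ k * Y.card)
    (hbig : (2 : ℝ) ^ Y.card * Real.exp (-(ε / 2 * Y.card)) ≤ G.card) :
    Real.exp (ε / 2 * Y.card) ≤ (4 * (C.size : ℝ) + 2) ^ R := by
  have h1 := hbig.trans (slice_count Y hR2 hRn hcore C f W hW hWc hF ht b hs G hG)
  have h3 : Real.exp (Y.card * Real.log 2 - ε * Y.card) =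
      2 ^ Y.card * Real.exp (-(ε * Y.card)) := by
    rw [sub_eq_add_neg, Real.exp_add, mul_comm (Y.card : ℝ) (Real.log 2), Real.exp_mul,
      Real.exp_log (by norm_num), Real.rpow_natCast]
  rw [h3] at h1
  have h4 : (0 : ℝ) < 2 ^ Y.card := by positivity
  have h5 : Real.exp (-(ε / 2 * Y.card)) ≤ (4 * (C.size : ℝ) + 2) ^ R *
      Real.exp (-(ε * Y.card)) := by
    rw [← mul_le_mul_iff_right₀ h4]
    calc (2 : ℝ) ^ Y.card * Real.exp (-(ε / 2 * Y.card)) ≤ _ := h1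
      _ = _ := by ring
  have h6 := mul_le_mul_of_nonneg_right h5 (Real.exp_pos (ε * Y.card)).le
  rw [mul_assoc, ← Real.exp_add, ← Real.exp_add] at h6
  have e1 : -(ε / 2 * (Y.card : ℝ)) + ε * Y.card = ε / 2 * Y.card := by ring
  have e2 : -(ε * (Y.card : ℝ)) + ε * Y.card = 0 := by ring
  rwa [e1, e2, Real.exp_zero, mul_one] at h6

/-- end of the computation -/
lemma num_final {R s : ℕ} {a e : ℝ} (h1 : 1 ≤ e) (hae : 4 * R * e ≤ a) (hR : 0 < R)
    (h : Real.exp a ≤ (4 * (s : ℝ) + 2) ^ R) : (2 : ℝ) ^ e ≤ s := by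
  by_contra hcon
  push Not at hcon
  have h2 : (2 : ℝ) ≤ 2 ^ e := by
    calc (2 : ℝ) = 2 ^ (1 : ℝ) := (Real.rpow_one 2).symm
      _ ≤ 2 ^ e := Real.rpow_le_rpow_of_exponent_le (by norm_num) h1
  obtain ⟨X, hX⟩ : ∃ X : ℝ, X = 2 ^ e := ⟨_, rfl⟩
  rw [← hX] at hcon h2
  have h3 : 4 * (s : ℝ) + 2 < X ^ 4 := by
    have h4 : (8 : ℝ) ≤ X ^ 3 := by
      calc (8 : ℝ) = 2 ^ 3 := by norm_num
        _ ≤ X ^ 3 := pow_le_pow_left₀ (by norm_num) h2 3
    have h5 : X ^ 4 = X ^ 3 * X := by ring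
    have h6 : 8 * X ≤ X ^ 3 * X := mul_le_mul_of_nonneg_right h4 (by linarith)
    linarith
  have h4 : (4 * (s : ℝ) + 2) ^ R < (X ^ 4) ^ R :=
    pow_lt_pow_left₀ h3 (by positivity) hR.ne'
  have h5 : (X ^ 4) ^ R = 2 ^ (4 * R * e) := by
    rw [← pow_mul, hX, ← Real.rpow_natCast, ← Real.rpow_mul (by norm_num)]
    congr 1
    push_cast
    ring
  have h6 : (2 : ℝ) ^ (4 * R * e) ≤ Real.exp a := by
    rw [Real.rpow_def_of_pos (by norm_num)]
    apply Real.exp_le_exp.2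
    have h7 : Real.log 2 < 1 := by
      have := Real.log_two_lt_d9
      linarith
    have h8 : 0 ≤ 4 * R * e := by positivity
    nlinarith
  rw [h5] at h4
  linarith

end Pool.Agent.LP44
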