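import Pool.Agent.LP44.Main
import Pool.Agent.LP44.Step

/-! The size bound for circuits with linear justification trees. -/

namespace Pool.Agent.LP44

open Pool.Agent.JT hiding paste
open Pool.Agent.SemRO (mix RectFree)
open Pool.Agent.PT44 (paste Core)
open Pool.Agent.KNL (bit run pT pS off0)
open Filter

section fixed

/-- number of leaves of the list that read the variable `i` -/
def wtl {m N : ℕ} (W : Fin m → Finset (Fin N)) (l : List (Fin m)) (i : Fin N) : ℕ :=
  (l.map (fun j => if i ∈ W j then 1 else 0)).sum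

lemma sum_wtl {m N : ℕ} (W : Fin m → Finset (Fin N)) (l : List (Fin m)) (Y : Finset (Fin N)) :
    ∑ i ∈ Y, wtl W l i = (l.map (fun j => (W j ∩ Y).card)).sum := by
  induction l with
  | nil => simp [wtl]
  | cons j l ih =>
    unfold wtl at *
    simp only [List.map_cons, List.sum_cons, Finset.sum_add_distrib, ih]
    congr 1
    rw [← Finset.card_filter, Finset.inter_comm, Finset.filter_mem_eq_inter]

open Classical in
/-- the bound for fixed parameters -/
theorem circ_fixed (k0 : ℕ) (c : ℝ) (hc : 0 < c) : ∃ (w s : ℕ) (ε : ℝ), 0 < ε ∧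
    ∀ᶠ N : ℕ in atTop, ∀ (Y : Finset (Fin N)) (m : ℕ) (C : Circuit m)
      (f : Fin m → (Fin N → Bool) → Bool) (W : Fin m → Finset (Fin N)),
      c * N ≤ Y.card → (∀ j, ((W j ∩ Y).card : ℝ) ≤ ε * N) →
      (∀ j x y, (∀ i, i ∉ Y ∨ i ∈ W j → x i = y i) → f j x = f j y) →
      (∀ x, C.eval (fun j => f j x) = true → lang 0 (2 ^ w) s (List.ofFn x)) →
      (2 : ℝ) ^ (-(ε * N)) * ((Finset.univ.filter (fun x : Fin N → Bool =>
          lang 0 (2 ^ w) s (List.ofFn x))).card : ℝ) ≤
        ((Finset.univ.filter (fun x : Fin N → Bool => lang 0 (2 ^ w) s (List.ofFn x) ∧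
          ∃ l, C.Just (fun j => f j x) C.out true l ∧
            (l.map (fun j => (W j ∩ Y).card)).sum ≤ k0 * N)).card : ℝ) →
      (2 : ℝ) ^ (ε * N) ≤ C.size := by
  obtain ⟨k', htr⟩ := transfer k0 c hc
  obtain ⟨R, εc, n0, hR2, hεc, hcore⟩ := core' (4 * k' + 4)
  obtain ⟨t, w, s, εt, hεt, c', hc', hN⟩ := htr (εc / 2) (by positivity)
  have hRpos : (0 : ℝ) < R := by exact_mod_cast (show 0 < R by omega)
  obtain ⟨ε, hε⟩ : ∃ ε, ε = min εt (min (c' / R) (εc * c' / (8 * R))) := ⟨_, rfl⟩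
  have hε0 : 0 < ε := by
    rw [hε]
    exact lt_min hεt (lt_min (by positivity) (by positivity))
  have hε1 : ε ≤ εt := by rw [hε]; exact min_le_left _ _
  have hε2 : ε ≤ c' / R := by rw [hε]; exact (min_le_right _ _).trans (min_le_left _ _)
  have hε3 : ε ≤ εc * c' / (8 * R) := by rw [hε]; exact (min_le_right _ _).trans (min_le_right _ _)
  rw [le_div_iff₀ hRpos] at hε2
  rw [le_div_iff₀ (by positivity)] at hε3
  refine ⟨w, s, ε, hε0, ?_⟩
  obtain ⟨N0, hN0⟩ := exists_nat_ge ((n0 + R : ℕ) / c' + t / (εc * c') + 1 / ε)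
  filter_upwards [hN, eventually_ge_atTop N0] with N hN hNN Y m C f W hY hWc hW hs hbig
  have hNr : (N0 : ℝ) ≤ N := by exact_mod_cast hNN
  have a1 : (0 : ℝ) ≤ (n0 + R : ℕ) / c' := by positivity
  have a2 : (0 : ℝ) ≤ t / (εc * c') := by positivity
  have a3 : (0 : ℝ) ≤ 1 / ε := by positivity
  have b1 : ((n0 + R : ℕ) : ℝ) / c' ≤ N := by linarith
  have b2 : (t : ℝ) / (εc * c') ≤ N := by linarith
  have b3 : 1 / ε ≤ N := by linarith
  rw [div_le_iff₀ hc'] at b1
  rw [div_le_iff₀ (by positivity)] at b2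
  rw [div_le_iff₀ hε0] at b3
  -- choose trees
  let P : (Fin N → Bool) → List (Fin m) → Prop := fun x l =>
    C.Just (fun j => f j x) C.out true l ∧ (l.map (fun j => (W j ∩ Y).card)).sum ≤ k0 * N
  let lst : (Fin N → Bool) → List (Fin m) := fun x => if h : ∃ l, P x l then h.choose else []
  have hlst : ∀ x, (∃ l, P x l) → P x (lst x) := by
    intro x hx
    have e : lst x = hx.choose := dif_pos hx
    rw [e]
    exact hx.choose_spec
  obtain ⟨G, hG⟩ : ∃ G, G = Finset.univ.filter (fun x : Fin N → Bool =>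
      lang 0 (2 ^ w) s (List.ofFn x) ∧ ∃ l, P x l) := ⟨_, rfl⟩
  have hGm : ∀ x ∈ G, lang 0 (2 ^ w) s (List.ofFn x) ∧ ∃ l, P x l := fun x hx => by
    rw [hG] at hx
    exact (Finset.mem_filter.1 hx).2
  have hbig' : (2 : ℝ) ^ (-(εt * N)) * ((Finset.univ.filter (fun x : Fin N → Bool =>
          lang 0 (2 ^ w) s (List.ofFn x))).card : ℝ) ≤ G.card := by
    refine le_trans (mul_le_mul_of_nonneg_right ?_ (Nat.cast_nonneg _)) (hbig.trans (le_of_eq ?_))
    · apply Real.rpow_le_rpow_of_exponent_le (by norm_num)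
      have : ε * N ≤ εt * N := mul_le_mul_of_nonneg_right hε1 (Nat.cast_nonneg _)
      linarith
    · rw [hG]
  obtain ⟨Y', hYY, hY'c, base, hRF, hslice⟩ := hN Y hY G (fun x => wtl W (lst x))
    (fun y hy => (hGm y hy).1) (fun y hy => by
      rw [sum_wtl]
      exact (hlst y (hGm y hy).2).2) hbig'
  have hY1 : ((n0 + R : ℕ) : ℝ) ≤ Y'.card := by
    have : (N : ℝ) * c' ≤ Y'.card := by rw [mul_comm]; exact hY'c
    linarith
  have hY2 : n0 + R ≤ Y'.card := by exact_mod_cast hY1
  have hstep := size_step (k := k') (R := R) (ε := εc) Y' hR2 (by omega)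
    (hcore _ (by omega)) C f W (by
      intro j x y hxy
      apply hW
      rintro i (hi | hi)
      · exact hxy i (Or.inl fun h => hi (hYY h))
      · exact hxy i (Or.inr hi)) (by
      intro j
      have h1 : (W j ∩ Y').card ≤ (W j ∩ Y).card :=
        Finset.card_le_card (Finset.inter_subset_inter_left hYY)
      have h2 : ((W j ∩ Y').card : ℝ) ≤ ε * N := le_trans (by exact_mod_cast h1) (hWc j)
      have h3 : ((W j ∩ Y').card : ℝ) * R ≤ Y'.card := by
        calc ((W j ∩ Y').card : ℝ) * R ≤ (ε * N) * R := mul_le_mul_of_nonneg_right h2 hRpos.le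
          _ = (ε * R) * N := by ring
          _ ≤ c' * N := mul_le_mul_of_nonneg_right hε2 (Nat.cast_nonneg _)
          _ ≤ Y'.card := hY'c
      exact_mod_cast h3) hRF (by
      have h1 : (t : ℝ) ≤ εc * Y'.card := by
        calc (t : ℝ) ≤ N * (εc * c') := b2
          _ = εc * (c' * N) := by ring
          _ ≤ εc * Y'.card := mul_le_mul_of_nonneg_left hY'c hεc.le
      have h2 := Real.add_one_le_exp (εc * Y'.card)
      linarith) base (fun x hx => hs _ hx) _ (by
      intro x hx
      obtain ⟨h1, h2⟩ := (Finset.mem_filter.1 hx).2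
      refine ⟨lst (paste Y' base x), (hlst _ (hGm _ h1).2).1, ?_⟩
      rw [← sum_wtl]
      exact h2) hslice
  refine num_final (R := R) (a := εc / 2 * Y'.card) (by rw [mul_comm]; exact b3) ?_ (by omega) hstep
  calc 4 * R * (ε * N) = (ε * (8 * R)) * N / 2 := by ring
    _ ≤ (εc * c') * N / 2 := by
        have := mul_le_mul_of_nonneg_right hε3 (Nat.cast_nonneg N : (0 : ℝ) ≤ N)
        linarith
    _ = εc / 2 * (c' * N) := by ring
    _ ≤ εc / 2 * Y'.card := mul_le_mul_of_nonneg_left hY'c (by positivity)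

end fixed

end Pool.Agent.LP44
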