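import Pool.Agent.KNL.Hash

/-! Few seeds of the hash functions have a level set which contains a rectangle. -/

namespace Pool.Agent.LP44

open Finset Pool.Agent.SemRO Pool.Agent.KNL.Hash

variable {n w m : ℕ}

/-- seeds for which some level set contains a `t × t` rectangle -/
def BadS (hm : m ≤ n) (t : ℕ) (c : Seed n w m) : Prop :=
  ∃ σ : Fin m → Bool, ¬ RectFree {x : Fin n → Bool | ∀ j, c.2 j (idx hm c.1 x j) = σ j} t

lemma bad_rect (hm : m ≤ n) {t : ℕ} {c : Seed n w m} (h : BadS hm t c) :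
    ∃ (A : Finset (Fin n)) (r : Fin t → Fin n → Bool), Dis A r ∧ AllEq hm (pt A r) c := by
  obtain ⟨σ, h⟩ := h
  unfold RectFree at h
  push Not at h
  obtain ⟨A, u, v, hu, hv, hcon⟩ := h
  let r : Fin t → Fin n → Bool := fun i => mix A (u i) (v i)
  have hdis : Dis A r := by
    intro i j hij
    obtain ⟨x, hx, hxx⟩ := hu i j hij
    obtain ⟨x', hx', hxx'⟩ := hv i j hij
    exact ⟨⟨x, hx, by simpa [r, mix, hx] using hxx⟩, ⟨x', hx', by simpa [r, mix, hx'] using hxx'⟩⟩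
  refine ⟨A, r, hdis, ?_⟩
  have hpt : ∀ p, pt A r p = mix A (u p.1) (v p.2) := by
    intro p
    funext x
    by_cases hx : x ∈ A <;> simp [pt, mix, hx, r]
  intro j p q
  have h1 := hcon p.1 p.2
  have h2 := hcon q.1 q.2
  rw [← hpt] at h1 h2
  exact (h1 j).trans (h2 j).symm

open Classical in
lemma card_bad_seed (hm : m ≤ n) {t : ℕ} (ht : 0 < t) (a E : ℕ) (ha : (t * t) ^ 2 * a ≤ m)
    (h1 : n + n * t + E + 1 + (t * t) ^ 2 + m ≤ w * a)
    (h2 : n + n * t + E + 1 ≤ (t * t - 1) * (m - (t * t) ^ 2 * a)) :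
    (univ.filter (fun c : Seed n w m => BadS hm t c)).card * 2 ^ E ≤
      2 ^ (2 * n * w) * 2 ^ (2 ^ w * m) := by
  have : Nonempty (Fin t × Fin t) := ⟨(⟨0, ht⟩, ⟨0, ht⟩)⟩
  have hι : Fintype.card (Fin t × Fin t) = t * t := by simp
  have hcover : (univ.filter (fun c : Seed n w m => BadS hm t c)) ⊆
      ((univ : Finset (Finset (Fin n) × (Fin t → Fin n → Bool))).filter
        fun p => Dis p.1 p.2).biUnion
        (fun p => univ.filter fun c : Seed n w m => AllEq hm (pt p.1 p.2) c) := by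
    intro c hc
    obtain ⟨A, r, hs, h⟩ := bad_rect hm (mem_filter.1 hc).2
    rw [mem_biUnion]
    exact ⟨(A, r), by simpa using hs, by simpa using h⟩
  set Q : ℝ := 2 ^ (2 * n * w) * 2 ^ (2 ^ w * m) with hQ
  have hQpos : 0 < Q := by positivity
  have hone : ∀ p ∈ (univ : Finset (Finset (Fin n) × (Fin t → Fin n → Bool))).filter
      (fun p => Dis p.1 p.2), ((univ.filter fun c : Seed n w m => AllEq hm (pt p.1 p.2) c).card : ℝ)
      ≤ Q * (2 / 2 ^ (n + n * t + E + 1)) := by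
    intro p hp
    have h3 := card_allEq (w := w) hm (pt p.1 p.2) (pt_inj _ _ (mem_filter.1 hp).2) a
      (by rw [hι]; exact ha)
    refine h3.trans (mul_le_mul_of_nonneg_left ?_ hQpos.le)
    rw [hι]
    have h4 : ((t * t : ℕ) : ℝ) ^ 2 * 2 ^ m / 2 ^ (w * a) ≤ 1 / 2 ^ (n + n * t + E + 1) := by
      rw [div_le_div_iff₀ (by positivity) (by positivity), one_mul]
      have h5 : ((t * t : ℕ) : ℝ) ^ 2 ≤ 2 ^ ((t * t) ^ 2) := by
        have : (t * t) ^ 2 ≤ 2 ^ ((t * t) ^ 2) := (Nat.lt_two_pow_self).le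
        exact_mod_cast this
      calc ((t * t : ℕ) : ℝ) ^ 2 * 2 ^ m * 2 ^ (n + n * t + E + 1)
          ≤ 2 ^ ((t * t) ^ 2) * 2 ^ m * 2 ^ (n + n * t + E + 1) := by gcongr
        _ = 2 ^ (n + n * t + E + 1 + (t * t) ^ 2 + m) := by
            rw [← pow_add, ← pow_add]; congr 1; ring
        _ ≤ 2 ^ (w * a) := pow_le_pow_right₀ (by norm_num) h1
    have h6 : (1 : ℝ) / 2 ^ ((t * t - 1) * (m - (t * t) ^ 2 * a)) ≤ 1 / 2 ^ (n + n * t + E + 1) := by
      apply one_div_le_one_div_of_le (by positivity)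
      exact pow_le_pow_right₀ (by norm_num) h2
    calc _ ≤ (1 : ℝ) / 2 ^ (n + n * t + E + 1) + 1 / 2 ^ (n + n * t + E + 1) := add_le_add h4 h6
      _ = _ := by ring
  have hc := (card_le_card hcover).trans card_biUnion_le
  have hc' : ((univ.filter (fun c : Seed n w m => BadS hm t c)).card : ℝ) ≤
      ∑ p ∈ (univ : Finset (Finset (Fin n) × (Fin t → Fin n → Bool))).filter
      (fun p => Dis p.1 p.2),
        ((univ.filter fun c : Seed n w m => AllEq hm (pt p.1 p.2) c).card : ℝ) := by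
    exact_mod_cast hc
  have h7 : ((univ.filter (fun c : Seed n w m => BadS hm t c)).card : ℝ) ≤
      2 ^ (n + n * t) * (Q * (2 / 2 ^ (n + n * t + E + 1))) := by
    refine hc'.trans ((Finset.sum_le_sum hone).trans ?_)
    calc ∑ p ∈ (univ : Finset (Finset (Fin n) × (Fin t → Fin n → Bool))).filter
            (fun p => Dis p.1 p.2), Q * (2 / 2 ^ (n + n * t + E + 1))
        ≤ ∑ _p ∈ (univ : Finset (Finset (Fin n) × (Fin t → Fin n → Bool))),
            Q * (2 / 2 ^ (n + n * t + E + 1)) :=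
          Finset.sum_le_sum_of_subset_of_nonneg (filter_subset _ _) fun _ _ _ => by positivity
      _ = _ := by
          simp only [sum_const, card_univ, Fintype.card_prod, Fintype.card_finset,
            Fintype.card_fin, nsmul_eq_mul, Fintype.card_pi, Fintype.card_bool, prod_const]
          push_cast
          rw [← pow_mul, ← pow_add]
  have h8 : (2 : ℝ) ^ (n + n * t) * (Q * (2 / 2 ^ (n + n * t + E + 1))) = Q / 2 ^ E := by
    have e : (2 : ℝ) ^ (n + n * t + E + 1) = 2 ^ (n + n * t) * 2 ^ E * 2 := by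
      rw [← pow_add, ← pow_succ]
    rw [e]
    field_simp
  rw [h8, le_div_iff₀ (by positivity)] at h7
  rw [hQ] at h7
  exact_mod_cast h7

open Classical in
/-- few seeds are bad: `n = s m`, `t = 8 s + 2` and `w` large -/
theorem card_bad_seed' (s u w : ℕ) (hs : 1 ≤ s) (t : ℕ) (ht : t = 8 * s + 2)
    (hu : 2 * (t * t) ^ 2 ≤ u)
    (hw : 4 * (t * t) ^ 2 * (s * (t + 1) + 3) + 1 + (t * t) ^ 2 ≤ w) (hm : u ≤ s * u) :
    (univ.filter (fun c : Seed (s * u) w u => BadS hm t c)).card * 2 ^ (2 * u) ≤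
      2 ^ (2 * (s * u) * w) * 2 ^ (2 ^ w * u) := by
  obtain ⟨T2, hT2⟩ : ∃ T2, T2 = (t * t) ^ 2 := ⟨_, rfl⟩
  obtain ⟨a, ha⟩ : ∃ a, a = u / (2 * T2) := ⟨_, rfl⟩
  have ht0 : 0 < t := by omega
  have hT2pos : 0 < T2 := by rw [hT2]; positivity
  rw [← hT2] at hu hw
  have ha1 : 1 ≤ a := by
    rw [ha]; exact (Nat.one_le_div_iff (by positivity)).2 hu
  have ha2 : T2 * a * 2 ≤ u := by
    have := Nat.div_mul_le_self u (2 * T2)
    rw [← ha] at this
    linarith
  have ha3 : u ≤ 4 * (T2 * a) := by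
    have h1 := Nat.lt_div_mul_add (a := u) (show 0 < 2 * T2 by positivity)
    rw [← ha] at h1
    have h2 : T2 ≤ T2 * a := Nat.le_mul_of_pos_right T2 ha1
    nlinarith
  apply card_bad_seed hm ht0 a (2 * u)
  · rw [← hT2]; omega
  · rw [← hT2]
    have e1 : s * u + s * u * t + 2 * u + 1 + T2 + u = (s * (t + 1) + 3) * u + 1 + T2 := by ring
    rw [e1]
    have e2 : (s * (t + 1) + 3) * u ≤ (s * (t + 1) + 3) * (4 * (T2 * a)) :=
      Nat.mul_le_mul_left _ ha3
    have e3 : (s * (t + 1) + 3) * (4 * (T2 * a)) + (1 + T2) * a ≤ w * a := by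
      calc (s * (t + 1) + 3) * (4 * (T2 * a)) + (1 + T2) * a
          = (4 * T2 * (s * (t + 1) + 3) + 1 + T2) * a := by ring
        _ ≤ w * a := Nat.mul_le_mul_right _ hw
    have e4 : 1 + T2 ≤ (1 + T2) * a := Nat.le_mul_of_pos_right _ ha1
    omega
  · rw [← hT2]
    have h1 : u ≤ 2 * (u - T2 * a) := by omega
    have h3 : 2 * (s * (t + 1) + 3) ≤ t * t - 1 := by
      have : 2 * (s * (t + 1) + 3) + 1 ≤ t * t := by rw [ht]; nlinarith
      omega
    have h4 : 2 * (s * (t + 1) + 3) * u ≤ (t * t - 1) * (2 * (u - T2 * a)) :=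
      Nat.mul_le_mul h3 h1
    have h5 : s * u + s * u * t + 2 * u + 1 ≤ (s * (t + 1) + 3) * u := by
      have h6 : 1 ≤ u := by omega
      have : (s * (t + 1) + 3) * u = s * u + s * u * t + 2 * u + u := by ring
      omega
    have h6 : 2 * ((s * (t + 1) + 3) * u) ≤ 2 * ((t * t - 1) * (u - T2 * a)) := by
      calc 2 * ((s * (t + 1) + 3) * u) = 2 * (s * (t + 1) + 3) * u := by ring
        _ ≤ (t * t - 1) * (2 * (u - T2 * a)) := h4
        _ = _ := by ring
    omega

end Pool.Agent.LP44
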