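import Pool.Agent.JT.Split
import Pool.Agent.PT44.Circ

/-! Words that consist of blocks, a seed and hash values; counting (for any hash function). -/

namespace Pool.Agent.LP44

open Pool.Agent.JT hiding paste
open Pool.Agent.SemRO (mix RectFree)

/-- the dimensions of a word: length `N`, `B` blocks of length `n`, `k` coefficients of length `m`,
`B` hash values of length `u` -/
structure Dims (N B n m u : ℕ) : Prop where
  le : B * n + m + B * u ≤ N

variable {N B n m u : ℕ}

lemma Dims.bx (h : Dims N B n m u) (b : Fin B) (i : Fin n) : (b : ℕ) * n + i < N := by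
  have h1 := h.le
  have h2 : (b : ℕ) * n + i < B * n := by
    calc (b : ℕ) * n + i < (b : ℕ) * n + n := by have := i.2; omega
      _ = (b + 1) * n := by ring
      _ ≤ B * n := Nat.mul_le_mul_right _ b.2
  omega

lemma Dims.sa (h : Dims N B n m u) (i : Fin m) : B * n + (i : ℕ) < N := by
  have h1 := h.le
  have := i.2
  omega

lemma Dims.sh_lt (b : Fin B) (i : Fin u) : (b : ℕ) * u + i < B * u := by
  calc (b : ℕ) * u + i < (b : ℕ) * u + u := by have := i.2; omega
    _ = (b + 1) * u := by ring
    _ ≤ B * u := Nat.mul_le_mul_right _ b.2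

lemma Dims.sh (h : Dims N B n m u) (b : Fin B) (i : Fin u) :
    B * n + m + (b : ℕ) * u + i < N := by
  have h1 := h.le
  have h2 := Dims.sh_lt b i
  omega

/-- block `b` of a word -/
def bx (h : Dims N B n m u) (y : Fin N → Bool) (b : Fin B) : Fin n → Bool :=
  fun i => y ⟨b * n + i, h.bx b i⟩

/-- the seed of a word -/
def sa (h : Dims N B n m u) (y : Fin N → Bool) : Fin m → Bool :=
  fun i => y ⟨B * n + i, h.sa i⟩

/-- the hash value of block `b` given in a word -/
def sh (h : Dims N B n m u) (y : Fin N → Bool) (b : Fin B) : Fin u → Bool :=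
  fun i => y ⟨B * n + m + b * u + i, h.sh b i⟩

/-- replace the hash values -/
def setSh (_h : Dims N B n m u) (y : Fin N → Bool) (σ : Fin B → Fin u → Bool) : Fin N → Bool :=
  fun i => if hi : B * n + m ≤ (i : ℕ) ∧ ((i : ℕ) - (B * n + m)) / u < B ∧
    ((i : ℕ) - (B * n + m)) % u < u then
    σ ⟨((i : ℕ) - (B * n + m)) / u, hi.2.1⟩ ⟨((i : ℕ) - (B * n + m)) % u, hi.2.2⟩ else y i

lemma sh_setSh (h : Dims N B n m u) (y : Fin N → Bool) (σ : Fin B → Fin u → Bool) :
    sh h (setSh h y σ) = σ := by
  funext b i
  have hu : 0 < u := by have := i.2; omega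
  have e1 : B * n + m + (b : ℕ) * u + i - (B * n + m) = u * b + i := by
    rw [mul_comm u]; omega
  have e2 : (B * n + m + (b : ℕ) * u + i - (B * n + m)) / u = b := by
    rw [e1, Nat.mul_add_div hu, Nat.div_eq_of_lt i.2, add_zero]
  have e3 : (B * n + m + (b : ℕ) * u + i - (B * n + m)) % u = i := by
    rw [e1, Nat.mul_add_mod, Nat.mod_eq_of_lt i.2]
  unfold sh setSh
  simp only
  rw [dif_pos ⟨by omega, by rw [e2]; exact b.2, by rw [e3]; exact i.2⟩]
  exact congr (congrArg σ (Fin.ext e2)) (Fin.ext e3)

lemma setSh_of_lt (h : Dims N B n m u) (y : Fin N → Bool) (σ : Fin B → Fin u → Bool) (i : Fin N)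
    (hi : (i : ℕ) < B * n + m) : setSh h y σ i = y i := by
  unfold setSh
  rw [dif_neg (by omega)]

lemma bx_setSh (h : Dims N B n m u) (y : Fin N → Bool) (σ : Fin B → Fin u → Bool) :
    bx h (setSh h y σ) = bx h y := by
  funext b i
  unfold bx
  apply setSh_of_lt
  have h2 : (b : ℕ) * n + i < B * n := by
    calc (b : ℕ) * n + i < (b : ℕ) * n + n := by have := i.2; omega
      _ = (b + 1) * n := by ring
      _ ≤ B * n := Nat.mul_le_mul_right _ b.2
  change (b : ℕ) * n + i < B * n + m
  omega

lemma sa_setSh (h : Dims N B n m u) (y : Fin N → Bool) (σ : Fin B → Fin u → Bool) :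
    sa h (setSh h y σ) = sa h y := by
  funext i
  unfold sa
  apply setSh_of_lt
  have := i.2
  change B * n + (i : ℕ) < B * n + m
  omega

lemma setSh_setSh (h : Dims N B n m u) (y : Fin N → Bool) (σ τ : Fin B → Fin u → Bool) :
    setSh h (setSh h y σ) τ = setSh h y τ := by
  funext i
  by_cases hi : B * n + m ≤ (i : ℕ) ∧ ((i : ℕ) - (B * n + m)) / u < B ∧
    ((i : ℕ) - (B * n + m)) % u < u
  · unfold setSh
    rw [dif_pos hi, dif_pos hi]
  · unfold setSh
    rw [dif_neg hi, dif_neg hi, dif_neg hi]

lemma setSh_sh (h : Dims N B n m u) (y : Fin N → Bool) : setSh h y (sh h y) = y := by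
  funext i
  unfold setSh
  split_ifs with hi
  · unfold sh
    congr 1
    apply Fin.ext
    have hu : 0 < u := by omega
    have := Nat.div_add_mod ((i : ℕ) - (B * n + m)) u
    have e : ((i : ℕ) - (B * n + m)) / u * u = u * (((i : ℕ) - (B * n + m)) / u) :=
      mul_comm _ _
    change B * n + m + ((i : ℕ) - (B * n + m)) / u * u +
      ((i : ℕ) - (B * n + m)) % u = i
    omega
  · rfl

variable (K : (Fin m → Bool) → (Fin n → Bool) → Fin u → Bool)

/-- all hash values are right -/
def Right (h : Dims N B n m u) (y : Fin N → Bool) : Prop :=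
  ∀ b, sh h y b = K (sa h y) (bx h y b)

/-- the hash values of the blocks of a word -/
noncomputable def hs (h : Dims N B n m u) (y : Fin N → Bool) : Fin B → Fin u → Bool :=
  fun b => K (sa h y) (bx h y b)

lemma right_iff (h : Dims N B n m u) (y : Fin N → Bool) : Right K h y ↔ sh h y = hs K h y :=
  ⟨fun H => funext H, fun H b => congrFun H b⟩

lemma hs_setSh (h : Dims N B n m u) (y : Fin N → Bool) (σ : Fin B → Fin u → Bool) :
    hs K h (setSh h y σ) = hs K h y := by
  unfold hs
  rw [sa_setSh, bx_setSh]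

lemma right_fix (h : Dims N B n m u) (y : Fin N → Bool) : Right K h (setSh h y (hs K h y)) := by
  rw [right_iff, sh_setSh, hs_setSh]

open Classical in
/-- counting words with right hash values and a given property of the blocks and the seed -/
lemma card_right (h : Dims N B n m u) (P : (Fin m → Bool) → Prop) :
    (Finset.univ.filter (fun y : Fin N → Bool => Right K h y ∧ P (sa h y))).card * 2 ^ (B * u) =
      (Finset.univ.filter (fun y : Fin N → Bool => P (sa h y))).card := by
  have h1 : (Finset.univ : Finset (Fin B → Fin u → Bool)).card = 2 ^ (B * u) := by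
    rw [Finset.card_univ, Fintype.card_fun, Fintype.card_fun, Fintype.card_bool, Fintype.card_fin,
      Fintype.card_fin, ← pow_mul, mul_comm]
  rw [← h1, ← Finset.card_product]
  refine Finset.card_bij' (fun p _ => setSh h p.1 p.2) (fun y _ => (setSh h y (hs K h y), sh h y))
    ?_ ?_ ?_ ?_
  · rintro ⟨y, σ⟩ hp
    obtain ⟨hy, _⟩ := Finset.mem_product.1 hp
    refine Finset.mem_filter.2 ⟨Finset.mem_univ _, ?_⟩
    rw [sa_setSh]
    exact (Finset.mem_filter.1 hy).2.2
  · intro y hy
    refine Finset.mem_product.2 ⟨Finset.mem_filter.2 ⟨Finset.mem_univ _, right_fix K h y, ?_⟩,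
      Finset.mem_univ _⟩
    rw [sa_setSh]
    exact (Finset.mem_filter.1 hy).2
  · rintro ⟨y, σ⟩ hp
    obtain ⟨hy, _⟩ := Finset.mem_product.1 hp
    have h2 := (right_iff K h y).1 (Finset.mem_filter.1 hy).2.1
    refine Prod.ext ?_ ?_
    · change setSh h (setSh h y σ) (hs K h (setSh h y σ)) = y
      rw [setSh_setSh, hs_setSh, ← h2, setSh_sh]
    · exact sh_setSh h y σ
  · intro y _
    change setSh h (setSh h y (hs K h y)) (sh h y) = y
    rw [setSh_setSh, setSh_sh]

open Classical in
lemma card_seed (h : Dims N B n m u) (S : Finset (Fin m → Bool)) :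
    (Finset.univ.filter (fun y : Fin N → Bool => sa h y ∈ S)).card * 2 ^ m =
      S.card * 2 ^ N := by
  have hle := h.le
  obtain ⟨r, hr⟩ : ∃ r, N = B * n + (1 * m + r) := ⟨N - (B * n + m), by omega⟩
  have h1 : (Finset.univ.filter (fun y : Fin N → Bool => sa h y ∈ S)).card =
      2 ^ (B * n) * (S.card * 2 ^ r) := by
    have h0 : S.card = (Finset.univ.filter (fun a : Fin 1 → Fin m → Bool => a 0 ∈ S)).card := by
      refine Finset.card_bij' (fun a _ _ => a) (fun a _ => a 0) ?_ ?_ ?_ ?_
      · intro a ha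
        exact Finset.mem_filter.2 ⟨Finset.mem_univ _, ha⟩
      · intro a ha
        exact (Finset.mem_filter.1 ha).2
      · intro a _; rfl
      · intro a _
        funext j
        rw [Subsingleton.elim j 0]
    have h2 : (Finset.univ.filter (fun y : Fin N → Bool => sa h y ∈ S)).card =
        ((Finset.univ : Finset (Fin (B * n) → Bool)) ×ˢ
          ((Finset.univ.filter (fun a : Fin 1 → Fin m → Bool => a 0 ∈ S)) ×ˢ
            (Finset.univ : Finset (Fin r → Bool)))).card := by
      have h5 : ∀ y : Fin N → Bool, sa h y = (splitE hr y).2.1 0 := by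
        intro y
        funext i
        unfold sa splitE parts
        simp
      refine Finset.card_bij' (fun y _ => splitE hr y) (fun p _ => (splitE hr).symm p) ?_ ?_ ?_ ?_
      · intro y hy
        refine Finset.mem_product.2 ⟨Finset.mem_univ _, Finset.mem_product.2
          ⟨Finset.mem_filter.2 ⟨Finset.mem_univ _, ?_⟩, Finset.mem_univ _⟩⟩
        rw [← h5]
        exact (Finset.mem_filter.1 hy).2
      · intro p hp
        refine Finset.mem_filter.2 ⟨Finset.mem_univ _, ?_⟩
        rw [h5, Equiv.apply_symm_apply]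
        exact (Finset.mem_filter.1 (Finset.mem_product.1 (Finset.mem_product.1 hp).2).1).2
      · intro y _; exact Equiv.symm_apply_apply _ _
      · intro p _; exact Equiv.apply_symm_apply _ _
    rw [h2, Finset.card_product, Finset.card_product, ← h0, Finset.card_univ, Finset.card_univ,
      Fintype.card_fun, Fintype.card_fun, Fintype.card_bool, Fintype.card_fin, Fintype.card_fin]
  rw [h1, hr, pow_add, pow_add, one_mul]
  ring

/-- all hash values are right, except possibly that of block `b` -/
def RightBut (h : Dims N B n m u) (b : Fin B) (y : Fin N → Bool) : Prop :=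
  ∀ b', b' ≠ b → sh h y b' = hs K h y b'

open Classical in
lemma card_rightBut (h : Dims N B n m u) (b : Fin B) :
    (Finset.univ.filter (fun y : Fin N → Bool => RightBut K h b y)).card ≤
      (Finset.univ.filter (fun y : Fin N → Bool => Right K h y)).card * 2 ^ u := by
  have h1 : (Finset.univ : Finset (Fin u → Bool)).card = 2 ^ u := by
    rw [Finset.card_univ, Fintype.card_fun, Fintype.card_bool, Fintype.card_fin]
  rw [← h1, ← Finset.card_product]
  refine Finset.card_le_card_of_injOn (fun y => (setSh h y (hs K h y), sh h y b)) ?_ ?_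
  · intro y _
    exact Finset.mem_coe.2 (Finset.mem_product.2 ⟨Finset.mem_filter.2 ⟨Finset.mem_univ _,
      right_fix K h y⟩, Finset.mem_univ _⟩)
  · intro y hy y' hy' heq
    have hy2 : RightBut K h b y := (Finset.mem_filter.1 hy).2
    have hy2' : RightBut K h b y' := (Finset.mem_filter.1 hy').2
    have e1 : setSh h y (hs K h y) = setSh h y' (hs K h y') := congrArg Prod.fst heq
    have e2 : sh h y b = sh h y' b := congrArg Prod.snd heq
    have e3 : hs K h y = hs K h y' := by
      have := congrArg (hs K h) e1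
      rwa [hs_setSh, hs_setSh] at this
    have e4 : sh h y = sh h y' := by
      funext b'
      by_cases hb : b' = b
      · subst hb; exact e2
      · rw [hy2 b' hb, hy2' b' hb, e3]
    calc y = setSh h (setSh h y (hs K h y)) (sh h y) := by rw [setSh_setSh, setSh_sh]
      _ = setSh h (setSh h y' (hs K h y')) (sh h y') := by rw [e1, e4]
      _ = y' := by rw [setSh_setSh, setSh_sh]

/-- the positions of block `b` -/
def Blk (_h : Dims N B n m u) (b : Fin B) : Finset (Fin N) :=
  Finset.univ.filter (fun i => (b : ℕ) * n ≤ i ∧ (i : ℕ) < (b + 1) * n)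

lemma mem_Blk {h : Dims N B n m u} {b : Fin B} {i : Fin N} :
    i ∈ Blk h b ↔ (b : ℕ) * n ≤ i ∧ (i : ℕ) < (b + 1) * n := by
  simp [Blk]

/-- words that agree off block `b` -/
lemma agree_off (h : Dims N B n m u) (b : Fin B) {y y' : Fin N → Bool}
    (hy : ∀ i, i ∉ Blk h b → y i = y' i) :
    sa h y = sa h y' ∧ sh h y = sh h y' ∧ ∀ b', b' ≠ b → bx h y b' = bx h y' b' := by
  have hb1 : ((b : ℕ) + 1) * n ≤ B * n := Nat.mul_le_mul_right _ b.2
  refine ⟨?_, ?_, ?_⟩
  · funext i
    apply hy
    rw [mem_Blk]
    change ¬ ((b : ℕ) * n ≤ B * n + i ∧ B * n + i < (b + 1) * n)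
    omega
  · funext b' i
    apply hy
    rw [mem_Blk]
    change ¬ ((b : ℕ) * n ≤ B * n + m + b' * u + i ∧ B * n + m + b' * u + i < (b + 1) * n)
    omega
  · intro b' hb'
    funext i
    apply hy
    rw [mem_Blk]
    change ¬ ((b : ℕ) * n ≤ b' * n + i ∧ b' * n + i < (b + 1) * n)
    rintro ⟨h1, h2⟩
    have hi := i.2
    have h3 : (b' : ℕ) ≠ b := fun h => hb' (Fin.ext h)
    rcases lt_or_gt_of_ne h3 with h4 | h4
    · have h5 : ((b' : ℕ) + 1) * n ≤ b * n := Nat.mul_le_mul_right _ h4
      have h6 : ((b' : ℕ) + 1) * n = b' * n + n := by ring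
      omega
    · have h5 : ((b : ℕ) + 1) * n ≤ b' * n := Nat.mul_le_mul_right _ h4
      omega

lemma rightBut_congr (h : Dims N B n m u) (b : Fin B) {y y' : Fin N → Bool}
    (hy : ∀ i, i ∉ Blk h b → y i = y' i) (H : RightBut K h b y) : RightBut K h b y' := by
  obtain ⟨h1, h2, h3⟩ := agree_off h b hy
  intro b' hb'
  have := H b' hb'
  unfold hs at this ⊢
  rw [← h2, ← h1, ← h3 b' hb']
  exact this

/-- restriction along an injection of coordinates -/
lemma rectFree_emb {p q : ℕ} {F : Set (Fin q → Bool)} {L : ℕ} (hF : RectFree F L)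
    (e : Fin p → Fin q) (he : Function.Injective e) (Φ : (Fin p → Bool) → Fin q → Bool)
    (h1 : ∀ x i, Φ x (e i) = x i) (h2 : ∀ x x' j, j ∉ Set.range e → Φ x j = Φ x' j) :
    RectFree {x | Φ x ∈ F} L := by
  classical
  intro A u v hu hv'
  obtain ⟨i, j, hij⟩ := hF (A.image e) (fun i => Φ (u i)) (fun j => Φ (v j)) (fun i j h => by
      obtain ⟨x, hx, hne⟩ := hu i j h
      exact ⟨e x, Finset.mem_image_of_mem _ hx, by rw [h1, h1]; exact hne⟩)
    (fun i j h => by
      obtain ⟨x, hx, hne⟩ := hv' i j h
      refine ⟨e x, fun hc => ?_, by rw [h1, h1]; exact hne⟩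
      obtain ⟨x', hx', hee⟩ := Finset.mem_image.1 hc
      exact hx (he hee ▸ hx'))
  refine ⟨i, j, fun hcon => hij ?_⟩
  have e1 : mix (A.image e) (Φ (u i)) (Φ (v j)) = Φ (mix A (u i) (v j)) := by
    funext x
    by_cases hx : x ∈ Set.range e
    · obtain ⟨x', rfl⟩ := hx
      have : e x' ∈ A.image e ↔ x' ∈ A := by
        constructor
        · intro h
          obtain ⟨x'', hx'', hee⟩ := Finset.mem_image.1 h
          exact he hee ▸ hx''
        · intro h
          exact Finset.mem_image_of_mem _ h
      unfold mix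
      rw [h1, h1, h1]
      simp only [this]
    · have h3 : x ∉ A.image e := by
        intro h
        obtain ⟨x', _, hee⟩ := Finset.mem_image.1 h
        exact hx ⟨x', hee⟩
      unfold mix
      rw [if_neg h3]
      exact h2 _ _ _ hx
  change mix _ _ _ ∈ F
  rw [e1]
  exact hcon

open Pool.Agent.PT44 (paste emb emb_mem emb_inj paste_emb)

/-- some level set of the hash function contains a rectangle -/
def Bad (t : ℕ) (c : Fin m → Bool) : Prop :=
  ∃ σ : Fin u → Bool, ¬ RectFree {x : Fin n → Bool | K c x = σ} t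

/-- slices of the language over a part of a block are rectangle-free if the seed is good -/
lemma slice_rectFree {t : ℕ} (h : Dims N B n m u) (b : Fin B) (Y : Finset (Fin N))
    (hY : Y ⊆ Blk h b) (base : {i // i ∉ Y} → Bool) (x0 : Fin Y.card → Bool)
    (hgood : ¬ Bad K t (sa h (paste Y base x0))) :
    RectFree {x : Fin Y.card → Bool | Right K h (paste Y base x)} t := by
  unfold Bad at hgood
  push Not at hgood
  have hoff : ∀ x x' : Fin Y.card → Bool, ∀ i, i ∉ Blk h b → paste Y base x i = paste Y base x' i := by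
    intro x x' i hi
    have : i ∉ Y := fun hc => hi (hY hc)
    unfold paste
    rw [dif_neg this, dif_neg this]
  have hF := hgood (sh h (paste Y base x0) b)
  have hpos : ∀ i : Fin Y.card, (b : ℕ) * n ≤ emb Y i ∧ ((emb Y i : Fin N) : ℕ) < (b + 1) * n :=
    fun i => mem_Blk.1 (hY (emb_mem Y i))
  have hlt : ∀ i : Fin Y.card, ((emb Y i : Fin N) : ℕ) - b * n < n := by
    intro i
    have h1 := hpos i
    have h2 : ((b : ℕ) + 1) * n = b * n + n := by ring
    omega
  have h3 := rectFree_emb hF (fun i : Fin Y.card => ⟨((emb Y i : Fin N) : ℕ) - b * n, hlt i⟩)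
    (fun i j hij => by
      apply emb_inj Y
      apply Fin.ext
      have h4 := congrArg Fin.val hij
      have h5 := hpos i
      have h6 := hpos j
      change ((emb Y i : Fin N) : ℕ) - b * n = ((emb Y j : Fin N) : ℕ) - b * n at h4
      omega) (fun x => bx h (paste Y base x) b) (fun x i => by
      have h4 : (⟨(b : ℕ) * n + (((emb Y i : Fin N) : ℕ) - b * n), h.bx b ⟨_, hlt i⟩⟩ : Fin N) =
          emb Y i := by
        apply Fin.ext
        have h5 := hpos i
        change (b : ℕ) * n + (((emb Y i : Fin N) : ℕ) - b * n) = (emb Y i : Fin N)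
        omega
      unfold bx
      rw [h4, paste_emb]) (fun x x' j hj => by
      unfold bx
      have h4 : (⟨(b : ℕ) * n + j, h.bx b j⟩ : Fin N) ∉ Y := by
        intro hc
        apply hj
        refine ⟨Y.equivFin ⟨_, hc⟩, ?_⟩
        apply Fin.ext
        change ((emb Y (Y.equivFin ⟨_, hc⟩) : Fin N) : ℕ) - b * n = j
        rw [Pool.Agent.PT44.emb_equiv]
        change (b : ℕ) * n + j - b * n = j
        omega
      unfold paste
      rw [dif_neg h4, dif_neg h4])
  refine Pool.Agent.SemRO.RectFree.mono h3 ?_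
  intro x hx
  have h4 := hx b
  obtain ⟨e1, e2, _⟩ := agree_off h b (hoff x x0)
  change K (sa h (paste Y base x0)) (bx h (paste Y base x) b) = sh h (paste Y base x0) b
  rw [← e1, ← e2]
  exact h4.symm

end Pool.Agent.LP44
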