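import Pool.Agent.LP44.Hash
import Pool.Agent.LP44.Words
import Pool.Agent.KNL.Compl
import Pool.Agent.JT.PTime

/-! An explicit language: words with two parameters, many blocks, one seed and the hash values of
all blocks. -/

namespace Pool.Agent.LP44

open Pool.Agent.PolyTime
open Pool.Agent.KNL (bit run pT pS off0)
open Pool.Agent.JT (ofFn_getD)

/-- the bit `i` after the first `o` bits -/
def bt (o : ℕ) (y : List Bool) (i : ℕ) : ℕ := (y.getD (o + i) false).toNat

open Classical in
/-- number of powers of two below `T` -/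
noncomputable def np (T : ℕ) : ℕ := ((Finset.range T).filter (fun q => ∃ l, q = 2 ^ l)).card

/-- number of hash bits of a block -/
noncomputable def un (o T s : ℕ) (y : List Bool) : ℕ :=
  (y.length - o) / (T * s + 2 * s * np T + 2 * T)

/-- parity of the scalar product of block `b` with a window -/
noncomputable def par (o T s : ℕ) (y : List Bool) (b j q : ℕ) : ℕ :=
  (∑ i ∈ Finset.range (s * un o T s y),
    bt o y (T * (s * un o T s y) + (np q * (2 * (s * un o T s y)) + (i + j))) *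
      bt o y (b * (s * un o T s y) + i)) % 2

/-- all hash values are right -/
def lang (o T s : ℕ) (y : List Bool) : Prop :=
  ∀ b < T, ∀ j < un o T s y, ∀ v < T,
    (∀ q < T, (∃ l, q = 2 ^ l) → v / q % 2 = par o T s y b j q) →
    bt o y (T * (s * un o T s y) + (np T * (2 * (s * un o T s y)) + (j * T + v))) =
    bt o y (T * (s * un o T s y) + (np T * (2 * (s * un o T s y)) + un o T s y * T) +
      b * un o T s y + j)

/-- the language -/
def LL (y : List Bool) : Prop := lang (off0 y) (pT y) (pS y) y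

section ptime

lemma isPow_iff (q : ℕ) : (∃ l, q = 2 ^ l) ↔ q ≠ 0 ∧ ∀ d < q + 1, q % d ≠ 0 ∨ (d = 1 ∨ d % 2 = 0) := by
  constructor
  · rintro ⟨l, rfl⟩
    refine ⟨by positivity, fun d _ => ?_⟩
    by_cases h : 2 ^ l % d = 0
    · right
      obtain ⟨j, _, rfl⟩ := (Nat.dvd_prime_pow Nat.prime_two).1 (Nat.dvd_of_mod_eq_zero h)
      rcases Nat.eq_zero_or_pos j with h0 | h0
      · left; rw [h0, pow_zero]
      · right
        obtain ⟨i, rfl⟩ := Nat.exists_eq_add_of_lt h0
        rw [zero_add, pow_succ]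
        omega
    · exact Or.inl h
  · rintro ⟨h0, h⟩
    rcases Nat.eq_two_pow_or_exists_odd_prime_and_dvd q with h1 | ⟨p, hp, hd, ho⟩
    · exact h1
    · exfalso
      have hle := Nat.le_of_dvd (Nat.pos_of_ne_zero h0) hd
      rcases h p (by omega) with h2 | h2 | h2
      · exact h2 (Nat.mod_eq_zero_of_dvd hd)
      · exact hp.one_lt.ne' h2
      · rw [Nat.odd_iff] at ho
        omega

lemma pd_pow {α : Type} [Ctx α] {F : List Bool → α → ℕ} (hF : PF F) :
    PD (fun x a => ∃ l, F x a = 2 ^ l) := by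
  have h1 : PD (fun x (p : α × ℕ) => F x p.1 % p.2 ≠ 0 ∨ (p.2 = 1 ∨ p.2 % 2 = 0)) :=
    ((hF.fst.mod PF.snd).ne_zero).or ((PD.eq PF.snd (PF.const 1)).or
      (PD.eq (PF.snd.mod (PF.const 2)) (PF.const 0)))
  refine PD.congr (hF.ne_zero.and (PD.forall_lt (hF.add (PF.const 1)) h1)) fun x a => ?_
  rw [isPow_iff]

lemma pf_np {α : Type} [Ctx α] {F : List Bool → α → ℕ} (hF : PF F) :
    PF (fun x a => np (F x a)) := by
  classical
  have h := PF.count (P := fun _ (p : α × ℕ) => ∃ l, p.2 = 2 ^ l) hF (pd_pow PF.snd)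
  refine h.congr fun x a => ?_
  unfold np
  congr 1

variable {o T s : List Bool → ℕ}

/-- a function of the word alone -/
def PW (F : List Bool → ℕ) : Prop := ∀ {α : Type} [Ctx α], PF (fun y (_ : α) => F y)

lemma pf_un (ho : PW o) (hT : PW T) (hs : PW s) : PW (fun y => un (o y) (T y) (s y) y) := by
  intro α _
  exact (PF.len.sub ho).div (((hT.mul hs).add (((PF.const 2).mul hs).mul (pf_np hT))).add
    ((PF.const 2).mul hT))

lemma pf_n (ho : PW o) (hT : PW T) (hs : PW s) :
    PW (fun y => s y * un (o y) (T y) (s y) y) := by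
  intro α _
  exact PF.mul hs (pf_un ho hT hs)

lemma pf_bt (ho : PW o) {α : Type} [Ctx α] {F : List Bool → α → ℕ} (hF : PF F) :
    PF (fun y a => bt (o y) y (F y a)) :=
  PF.inp (PF.add ho hF)

lemma pf_par (ho : PW o) (hT : PW T) (hs : PW s) {α : Type} [Ctx α]
    {b j q : List Bool → α → ℕ} (hb : PF b) (hj : PF j) (hq : PF q) :
    PF (fun y a => par (o y) (T y) (s y) y (b y a) (j y a) (q y a)) := by
  have h1 : PF (fun y (p : α × ℕ) =>
      bt (o y) y (T y * (s y * un (o y) (T y) (s y) y) +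
        (np (q y p.1) * (2 * (s y * un (o y) (T y) (s y) y)) + (p.2 + j y p.1))) *
      bt (o y) y (b y p.1 * (s y * un (o y) (T y) (s y) y) + p.2)) := by
    refine PF.mul (pf_bt ho ?_) (pf_bt ho ?_)
    · exact PF.add (PF.mul hT (pf_n ho hT hs)) (PF.add (PF.mul (pf_np hq.fst)
        (PF.mul (PF.const 2) (pf_n ho hT hs))) (PF.add PF.snd hj.fst))
    · exact PF.add (PF.mul hb.fst (pf_n ho hT hs)) PF.snd
  have h2 : PF (fun y (_ : α) => s y * un (o y) (T y) (s y) y) := pf_n ho hT hs
  exact (PF.sum h2 h1).mod (PF.const 2)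

lemma pd_lang (ho : PW o) (hT : PW T) (hs : PW s) :
    PD (fun y (_ : Unit) => lang (o y) (T y) (s y) y) := by
  have h1 : PD (fun y (p : (((Unit × ℕ) × ℕ) × ℕ) × ℕ) => ¬ (∃ l, p.2 = 2 ^ l) ∨
      p.1.2 / p.2 % 2 = par (o y) (T y) (s y) y p.1.1.1.2 p.1.1.2 p.2) :=
    (pd_pow PF.snd).not.or (PD.eq (((PF.snd.fst).div PF.snd).mod (PF.const 2))
      (pf_par ho hT hs PF.snd.fst.fst.fst PF.snd.fst.fst PF.snd))
  have h2 : PD (fun y (p : ((Unit × ℕ) × ℕ) × ℕ) => ∀ q < T y, ¬ (∃ l, q = 2 ^ l) ∨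
      p.2 / q % 2 = par (o y) (T y) (s y) y p.1.1.2 p.1.2 q) :=
    PD.forall_lt hT h1
  have h3 : PD (fun y (p : ((Unit × ℕ) × ℕ) × ℕ) =>
      bt (o y) y (T y * (s y * un (o y) (T y) (s y) y) + (np (T y) *
        (2 * (s y * un (o y) (T y) (s y) y)) + (p.1.2 * T y + p.2))) =
      bt (o y) y (T y * (s y * un (o y) (T y) (s y) y) + (np (T y) *
        (2 * (s y * un (o y) (T y) (s y) y)) + un (o y) (T y) (s y) y * T y) +
        p.1.1.2 * un (o y) (T y) (s y) y + p.1.2)) := by
    refine PD.eq (pf_bt ho ?_) (pf_bt ho ?_)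
    · exact PF.add (PF.mul hT (pf_n ho hT hs)) (PF.add (PF.mul (pf_np hT)
        (PF.mul (PF.const 2) (pf_n ho hT hs))) (PF.add (PF.mul PF.snd.fst hT) PF.snd))
    · exact PF.add (PF.add (PF.add (PF.mul hT (pf_n ho hT hs)) (PF.add (PF.mul (pf_np hT)
        (PF.mul (PF.const 2) (pf_n ho hT hs))) (PF.mul (pf_un ho hT hs) hT)))
        (PF.mul PF.snd.fst.fst (pf_un ho hT hs))) PF.snd.fst
  have h4 := PD.forall_lt hT (h2.not.or h3)
  have h5 := PD.forall_lt (pf_un ho hT hs) h4
  have h6 := PD.forall_lt hT h5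
  refine PD.congr h6 fun y _ => ?_
  unfold lang
  simp only [← imp_iff_not_or]

lemma pf_run {α : Type} [Ctx α] {F : List Bool → α → ℕ} (hF : PF F) :
    PF (fun y a => run y (F y a)) := by
  classical
  have h1 : PD (fun y (p : (α × ℕ) × ℕ) => bit y (F y p.1.1 + p.2) = 1) :=
    PD.eq (PF.inp (hF.fst.fst.add PF.snd)) (PF.const 1)
  have h2 : PD (fun y (p : α × ℕ) => ∀ i' ≤ p.2, bit y (F y p.1 + i') = 1) := by
    refine PD.congr (PD.forall_lt (PF.snd.add (PF.const 1)) h1) fun y p => ?_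
    constructor
    · intro h i hi
      exact h i (by omega)
    · intro h i hi
      exact h i (by omega)
  refine (PF.count PF.len h2).congr fun y a => ?_
  unfold run
  congr 1

lemma pw_T : PW pT := by
  intro α _
  exact pf_run (PF.const 0)

lemma pw_S : PW pS := by
  intro α _
  exact pf_run (PF.add pw_T (PF.const 1))

lemma pw_off : PW off0 := by
  intro α _
  exact PF.add (PF.add pw_T pw_S) (PF.const 2)

lemma pd_LL : PD (fun y (_ : Unit) => LL y) := pd_lang pw_off pw_T pw_S

open Classical in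
theorem LL_polyTime : Nonempty (Turing.TM2ComputableInPolyTime
    (id : List Bool → List Bool) (id : List Bool → List Bool)
    (fun w => [decide (LL w)])) := by
  apply PFBits.polyTime
  refine ⟨fun _ => 1, fun w _ => if LL w then 1 else 0, PF.const 1, ?_, ?_⟩
  · exact PF.ite (P := fun w (_ : Unit × ℕ) => LL w)
      (PD.congr (PD.fst (α := Unit) pd_LL) (fun _ _ => Iff.rfl))
      (PF.const 1) (PF.const 0)
  · intro w
    by_cases h : LL w <;> simp [h]

end ptime

end Pool.Agent.LP44
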