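import Pool.Agent.LP44.Lang

/-! The language in terms of blocks, seed and hash values; few seeds are bad. -/

namespace Pool.Agent.LP44

open Pool.Agent.JT (ofFn_getD)
open Pool.Agent.SemRO (mix RectFree)
open Pool.Agent.KNL.Hash (Seed idx)

/-- entry of a vector, `false` beyond the end -/
def get {m : ℕ} (c : Fin m → Bool) (i : ℕ) : Bool := if h : i < m then c ⟨i, h⟩ else false

lemma get_of_lt {m : ℕ} (c : Fin m → Bool) (i : ℕ) (h : i < m) : get c i = c ⟨i, h⟩ := dif_pos h

/-- length of a seed -/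
def ml (w s u : ℕ) : ℕ := w * (2 * (s * u)) + u * 2 ^ w

/-- parities computed from `x` -/
def pr {m n : ℕ} (c : Fin m → Bool) (x : Fin n → Bool) (j l : ℕ) : ℕ :=
  (∑ i : Fin n, (get c (l * (2 * n) + (i + j))).toNat * (x i).toNat) % 2

/-- the hash function -/
def HK (w s u : ℕ) (c : Fin (ml w s u) → Bool) (x : Fin (s * u) → Bool) : Fin u → Bool := fun j =>
  get c (w * (2 * (s * u)) + (j * 2 ^ w + Nat.ofBits (fun l : Fin w => decide (pr c x j l = 1))))

/-- the seed in the form of `KNL.Hash` -/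
def dec (w s u : ℕ) (c : Fin (ml w s u) → Bool) : Seed (s * u) w u :=
  (fun l i => get c (l * (2 * (s * u)) + i),
    fun j v => get c (w * (2 * (s * u)) + (j * 2 ^ w + Nat.ofBits v)))

lemma dec_inj (w s u : ℕ) : Function.Injective (dec w s u) := by
  intro c c' h
  have h1 := congrArg Prod.fst h
  have h2 := congrArg Prod.snd h
  funext ⟨i, hi⟩
  rw [← get_of_lt c i hi, ← get_of_lt c' i hi]
  by_cases hlt : i < w * (2 * (s * u))
  · have hpos : 0 < 2 * (s * u) := by
      rcases Nat.eq_zero_or_pos (2 * (s * u)) with h0 | h0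
      · rw [h0] at hlt; simp at hlt
      · exact h0
    have hl : i / (2 * (s * u)) < w := (Nat.div_lt_iff_lt_mul hpos).2 hlt
    have := congrFun (congrFun h1 ⟨i / (2 * (s * u)), hl⟩) ⟨i % (2 * (s * u)), Nat.mod_lt _ hpos⟩
    simp only [dec] at this
    rw [mul_comm, Nat.div_add_mod] at this
    exact this
  · have hlt' : i - w * (2 * (s * u)) < u * 2 ^ w := by
      unfold ml at hi
      omega
    have hpos : 0 < 2 ^ w := by positivity
    have hj : (i - w * (2 * (s * u))) / 2 ^ w < u := (Nat.div_lt_iff_lt_mul hpos).2 hlt'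
    obtain ⟨r, hr⟩ : ∃ r, r = (i - w * (2 * (s * u))) % 2 ^ w := ⟨_, rfl⟩
    have := congrFun (congrFun h2 ⟨(i - w * (2 * (s * u))) / 2 ^ w, hj⟩)
      (fun l : Fin w => r.testBit l)
    simp only [dec] at this
    have hr2 : r % 2 ^ w = r := Nat.mod_eq_of_lt (by rw [hr]; exact Nat.mod_lt _ hpos)
    rw [Nat.ofBits_testBit, hr2] at this
    have e : w * (2 * (s * u)) + ((i - w * (2 * (s * u))) / 2 ^ w * 2 ^ w + r) = i := by
      rw [hr, mul_comm _ (2 ^ w), Nat.div_add_mod]
      omega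
    rwa [e] at this

lemma HK_eq (w s u : ℕ) (hm : u ≤ s * u) (c : Fin (ml w s u) → Bool) (x : Fin (s * u) → Bool)
    (j : Fin u) : HK w s u c x j = (dec w s u c).2 j (idx hm (dec w s u c).1 x j) := by
  unfold HK dec idx
  simp only
  congr 4
  funext l
  unfold pr
  congr 3
  refine Finset.sum_congr rfl fun i _ => ?_
  have h : ∀ a b : Bool, a.toNat * b.toNat = if (a && b) = true then 1 else 0 := by decide
  exact h _ _

open Classical in
/-- few seeds are bad -/
theorem card_bad_HK (w s u t : ℕ) (hs : 1 ≤ s) (ht : t = 8 * s + 2)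
    (hu : 2 * (t * t) ^ 2 ≤ u)
    (hw : 4 * (t * t) ^ 2 * (s * (t + 1) + 3) + 1 + (t * t) ^ 2 ≤ w) :
    (Finset.univ.filter (fun a : Fin (ml w s u) → Bool => Bad (HK w s u) t a)).card * 2 ^ (2 * u) ≤
      2 ^ ml w s u := by
  have hm : u ≤ s * u := Nat.le_mul_of_pos_left _ hs
  have h1 := card_bad_seed' s u w hs t ht hu hw hm
  have h2 : (Finset.univ.filter (fun a : Fin (ml w s u) → Bool => Bad (HK w s u) t a)).card ≤
      (Finset.univ.filter (fun c : Seed (s * u) w u => BadS hm t c)).card := by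
    apply Finset.card_le_card_of_injOn (dec w s u)
    · intro c hc
      obtain ⟨σ, hσ⟩ := (Finset.mem_filter.1 hc).2
      refine Finset.mem_coe.2 (Finset.mem_filter.2 ⟨Finset.mem_univ _, σ, ?_⟩)
      have e : {x : Fin (s * u) → Bool | HK w s u c x = σ} =
          {x : Fin (s * u) → Bool | ∀ j, (dec w s u c).2 j (idx hm (dec w s u c).1 x j) = σ j} := by
        ext x
        simp only [Set.mem_ofPred_eq, funext_iff, HK_eq w s u hm]
      rwa [e] at hσ
    · intro c _ c' _ h
      exact dec_inj w s u h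
  refine (Nat.mul_le_mul_right _ h2).trans (h1.trans ?_)
  rw [← pow_add]
  apply Nat.pow_le_pow_right (by norm_num)
  unfold ml
  apply le_of_eq
  ring

lemma np_two_pow (l : ℕ) : np (2 ^ l) = l := by
  classical
  have h : (Finset.range (2 ^ l)).filter (fun q => ∃ k, q = 2 ^ k) =
      (Finset.range l).image (fun k => 2 ^ k) := by
    ext q
    simp only [Finset.mem_filter, Finset.mem_range, Finset.mem_image]
    constructor
    · rintro ⟨h1, k, rfl⟩
      exact ⟨k, (Nat.pow_lt_pow_iff_right (by norm_num)).1 h1, rfl⟩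
    · rintro ⟨k, hk, rfl⟩
      exact ⟨(Nat.pow_lt_pow_iff_right (by norm_num)).2 hk, k, rfl⟩
  unfold np
  have h2 : ((Finset.range (2 ^ l)).filter (fun q => ∃ k, q = 2 ^ k)).card = l := by
    rw [h, Finset.card_image_of_injective _ (Nat.pow_right_injective le_rfl), Finset.card_range]
  convert h2

/-- size of one unit -/
def DD (w s : ℕ) : ℕ := 2 ^ w * s + 2 * s * w + 2 * 2 ^ w

lemma dims_of_div {N w s u : ℕ} (hu : N / DD w s = u) :
    Dims N (2 ^ w) (s * u) (ml w s u) u := by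
  constructor
  have h1 : u * DD w s ≤ N := by
    rw [← hu]; exact Nat.div_mul_le_self _ _
  have h2 : u * DD w s = 2 ^ w * (s * u) + ml w s u + 2 ^ w * u := by
    unfold DD ml
    ring
  omega

lemma index_iff {w v : ℕ} (hv : v < 2 ^ w) (P : ℕ → ℕ) (hP : ∀ q, P q < 2) :
    (∀ q < 2 ^ w, (∃ l, q = 2 ^ l) → v / q % 2 = P q) ↔
      v = Nat.ofBits (fun l : Fin w => decide (P (2 ^ (l : ℕ)) = 1)) := by
  constructor
  · intro h
    have h1 : Nat.ofBits (fun l : Fin w => v.testBit l) = v := by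
      rw [Nat.ofBits_testBit, Nat.mod_eq_of_lt hv]
    rw [← h1]
    congr 1
    funext l
    rw [Nat.testBit_eq_decide_div_mod_eq, h (2 ^ (l : ℕ))
      ((Nat.pow_lt_pow_iff_right (by norm_num)).2 l.2) ⟨_, rfl⟩]
  · rintro h _ hq ⟨l, rfl⟩
    have hl : l < w := (Nat.pow_lt_pow_iff_right (by norm_num)).1 hq
    have h1 : v.testBit l = decide (P (2 ^ l) = 1) := by
      rw [h, Nat.testBit_ofBits_lt _ _ hl]
    rw [Nat.testBit_eq_decide_div_mod_eq, decide_eq_decide] at h1
    have h2 := hP (2 ^ l)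
    omega

theorem lang_iff {N w s u : ℕ} (hu : N / DD w s = u)
    (h : Dims N (2 ^ w) (s * u) (ml w s u) u) (y : Fin N → Bool) :
    lang 0 (2 ^ w) s (List.ofFn y) ↔ Right (HK w s u) h y := by
  have hun : un 0 (2 ^ w) s (List.ofFn y) = u := by
    unfold un
    rw [np_two_pow, List.length_ofFn, Nat.sub_zero]
    exact hu
  have hbt : ∀ i (hi : i < N), bt 0 (List.ofFn y) i = (y ⟨i, hi⟩).toNat := by
    intro i hi
    unfold bt
    rw [zero_add, ofFn_getD y _ hi]
  have hle := h.le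
  have hseed : ∀ i, i < ml w s u → bt 0 (List.ofFn y) (2 ^ w * (s * u) + i) =
      (get (sa h y) i).toNat := by
    intro i hi
    rw [hbt _ (by omega), get_of_lt _ _ hi]
    rfl
  have hpar : ∀ (b : Fin (2 ^ w)) (j : Fin u) (l : ℕ), l < w →
      par 0 (2 ^ w) s (List.ofFn y) b j (2 ^ l) = pr (sa h y) (bx h y b) j l := by
    intro b j l hl
    unfold par pr
    rw [hun, np_two_pow, Finset.sum_range]
    congr 1
    refine Finset.sum_congr rfl fun i _ => ?_
    have hi := i.2
    have hj := j.2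
    have hsu : u ≤ s * u := by
      rcases Nat.eq_zero_or_pos s with h0 | h0
      · have : s * u = 0 := by rw [h0, Nat.zero_mul]
        omega
      · exact Nat.le_mul_of_pos_left _ h0
    have h1 : l * (2 * (s * u)) + (i + j) < ml w s u := by
      unfold ml
      have : (l + 1) * (2 * (s * u)) ≤ w * (2 * (s * u)) := Nat.mul_le_mul_right _ hl
      have e : (l + 1) * (2 * (s * u)) = l * (2 * (s * u)) + 2 * (s * u) := by ring
      omega
    rw [hseed _ h1, hbt _ (h.bx b i)]
    rfl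
  have hidx : ∀ (b : Fin (2 ^ w)) (j : Fin u) (v : ℕ), v < 2 ^ w →
      ((∀ q < 2 ^ w, (∃ l, q = 2 ^ l) → v / q % 2 = par 0 (2 ^ w) s (List.ofFn y) b j q) ↔
      v = Nat.ofBits (fun l : Fin w => decide (pr (sa h y) (bx h y b) j l = 1))) := by
    intro b j v hv
    rw [index_iff hv _ (fun q => by unfold par; exact Nat.mod_lt _ (by norm_num))]
    have e : (fun l : Fin w => decide (par 0 (2 ^ w) s (List.ofFn y) b j (2 ^ (l : ℕ)) = 1)) =
        (fun l : Fin w => decide (pr (sa h y) (bx h y b) j l = 1)) := by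
      funext l
      rw [hpar b j l l.2]
    rw [e]
  have hjT : ∀ (j : Fin u) (v : ℕ), v < 2 ^ w →
      w * (2 * (s * u)) + (j * 2 ^ w + v) < ml w s u := by
    intro j v hv
    unfold ml
    have : ((j : ℕ) + 1) * 2 ^ w ≤ u * 2 ^ w := Nat.mul_le_mul_right _ j.2
    have e : ((j : ℕ) + 1) * 2 ^ w = j * 2 ^ w + 2 ^ w := by ring
    omega
  have key : ∀ (b : Fin (2 ^ w)) (j : Fin u),
      (∀ v < 2 ^ w, (∀ q < 2 ^ w, (∃ l, q = 2 ^ l) → v / q % 2 =
        par 0 (2 ^ w) s (List.ofFn y) b j q) →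
      bt 0 (List.ofFn y) (2 ^ w * (s * u) + (w * (2 * (s * u)) + (j * 2 ^ w + v))) =
      bt 0 (List.ofFn y) (2 ^ w * (s * u) + (w * (2 * (s * u)) + u * 2 ^ w) + b * u + j)) ↔
      sh h y b j = HK w s u (sa h y) (bx h y b) j := by
    intro b j
    obtain ⟨v0, hv0⟩ : ∃ v0, v0 = Nat.ofBits (fun l : Fin w =>
      decide (pr (sa h y) (bx h y b) j l = 1)) := ⟨_, rfl⟩
    have hv0lt : v0 < 2 ^ w := by rw [hv0]; exact Nat.ofBits_lt_two_pow _
    have h1 : bt 0 (List.ofFn y) (2 ^ w * (s * u) + (w * (2 * (s * u)) + (j * 2 ^ w + v0))) =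
        (HK w s u (sa h y) (bx h y b) j).toNat := by
      rw [hseed _ (hjT j v0 hv0lt)]
      unfold HK
      rw [← hv0]
    have h2 : bt 0 (List.ofFn y) (2 ^ w * (s * u) + (w * (2 * (s * u)) + u * 2 ^ w) + b * u + j) =
        (sh h y b j).toNat := by
      exact hbt _ (h.sh b j)
    have h3 : ∀ a c : Bool, a.toNat = c.toNat ↔ c = a := by decide
    constructor
    · intro H
      have := H v0 hv0lt ((hidx b j v0 hv0lt).2 hv0)
      rw [h1, h2] at this
      exact (h3 _ _).1 this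
    · intro H v hv hcond
      have hvv : v = v0 := by rw [hv0]; exact (hidx b j v hv).1 hcond
      rw [hvv, h1, h2]
      exact (h3 _ _).2 H
  unfold lang
  rw [hun, np_two_pow]
  constructor
  · intro H b
    funext j
    exact (key b j).1 (H b b.2 j j.2)
  · intro H b hb j hj
    exact (key ⟨b, hb⟩ ⟨j, hj⟩).2 (congrFun (H ⟨b, hb⟩) ⟨j, hj⟩)

end Pool.Agent.LP44
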