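import Pool.Agent.LP44.Transfer
import Pool.Agent.LP44.Sem

/-! The transfer theorem. -/

namespace Pool.Agent.LP44

open Pool.Agent.JT hiding paste
open Pool.Agent.SemRO (mix RectFree)
open Pool.Agent.PT44 (paste card_slices card_rest)
open Filter

lemma sq_le_two_pow {w : ℕ} (hw : 4 ≤ w) : w * w ≤ 2 ^ w := by
  induction w, hw using Nat.le_induction with
  | base => norm_num
  | succ w hw ih =>
    rw [pow_succ]
    nlinarith

open Classical in
/-- **Transfer theorem.** For every `k0` and `c > 0` there is `k'` such that for all `ε0 > 0` there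
are parameters with the following property: for every set `Y` of at least `c N`
variables, every dense set `G` of words of the language, and every function that counts at most
`k0 N` reads of variables in `Y` for every word of `G`, there are a subset `Y'` of `Y` of linear
size and an assignment `base` of the other variables such that the language is rectangle-free over
`base`, and many words of `G` over `base` have at most `k' |Y'|` reads in `Y'`. -/
theorem transfer (k0 : ℕ) (c : ℝ) (hc : 0 < c) : ∃ k' : ℕ, ∀ ε0 : ℝ, 0 < ε0 →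
    ∃ (t w s : ℕ) (ε : ℝ), 0 < ε ∧ ∃ c' : ℝ, 0 < c' ∧
    ∀ᶠ N : ℕ in atTop, ∀ Y : Finset (Fin N), c * N ≤ Y.card →
      ∀ (G : Finset (Fin N → Bool)) (wt : (Fin N → Bool) → Fin N → ℕ),
      (∀ y ∈ G, lang 0 (2 ^ w) s (List.ofFn y)) → (∀ y ∈ G, ∑ i ∈ Y, wt y i ≤ k0 * N) →
      (2 : ℝ) ^ (-(ε * N)) *
        ((Finset.univ.filter (fun y : Fin N → Bool => lang 0 (2 ^ w) s (List.ofFn y))).card : ℝ) ≤
          G.card →
      ∃ Y' : Finset (Fin N), Y' ⊆ Y ∧ c' * N ≤ Y'.card ∧ ∃ base : {i // i ∉ Y'} → Bool,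
        RectFree {x : Fin Y'.card → Bool | lang 0 (2 ^ w) s (List.ofFn (paste Y' base x))} t ∧
        (2 : ℝ) ^ Y'.card * Real.exp (-(ε0 * Y'.card)) ≤
          ((Finset.univ.filter (fun x : Fin Y'.card → Bool => paste Y' base x ∈ G ∧
            ∑ i ∈ Y', wt (paste Y' base x) i ≤ k' * Y'.card)).card : ℝ) := by
  obtain ⟨k', hk'⟩ := exists_nat_ge (2 * (k0 : ℝ) / c)
  rw [div_le_iff₀ hc] at hk'
  refine ⟨k', fun ε0 hε0 => ?_⟩
  -- constants
  obtain ⟨s, hs0⟩ := exists_nat_ge (16 / (ε0 * c) + 24 / c + 1)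
  have hs1 : 16 / (ε0 * c) ≤ s := by
    have : (0 : ℝ) ≤ 24 / c := by positivity
    linarith
  have hs2 : 24 / c ≤ s := by
    have : (0 : ℝ) ≤ 16 / (ε0 * c) := by positivity
    linarith
  have hs3 : (1 : ℝ) ≤ s := by
    have : (0 : ℝ) ≤ 16 / (ε0 * c) := by positivity
    have : (0 : ℝ) ≤ 24 / c := by positivity
    linarith
  rw [div_le_iff₀ (by positivity)] at hs1
  rw [div_le_iff₀ hc] at hs2
  have hs4 : 1 ≤ s := by exact_mod_cast hs3
  obtain ⟨t, ht⟩ : ∃ t : ℕ, t = 8 * s + 2 := ⟨_, rfl⟩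
  obtain ⟨w1, hw1⟩ := exists_nat_ge (24 / c)
  obtain ⟨w, hw⟩ : ∃ w : ℕ, w = 4 * (t * t) ^ 2 * (s * (t + 1) + 3) + 1 + (t * t) ^ 2 + w1 + 4 :=
    ⟨_, rfl⟩
  obtain ⟨B, hB⟩ : ∃ B : ℕ, B = 2 ^ w := ⟨_, rfl⟩
  have hB3 : 1 ≤ B := by rw [hB]; exact Nat.one_le_two_pow
  have hB2 : (1 : ℝ) ≤ B := by exact_mod_cast hB3
  have hwB : 24 * (w : ℝ) ≤ c * B := by
    have h1 : w * w ≤ B := by rw [hB]; exact sq_le_two_pow (by omega)
    have h2 : (w : ℝ) * w ≤ B := by exact_mod_cast h1
    have h3 : 24 / c ≤ w := by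
      have : (w1 : ℝ) ≤ w := by exact_mod_cast (show w1 ≤ w by omega)
      linarith
    rw [div_le_iff₀ hc] at h3
    have h4 : (0 : ℝ) ≤ w := Nat.cast_nonneg _
    calc 24 * (w : ℝ) ≤ (w * c) * w := mul_le_mul_of_nonneg_right h3 h4
      _ = c * (w * w) := by ring
      _ ≤ c * B := mul_le_mul_of_nonneg_left h2 hc.le
  obtain ⟨D, hD⟩ : ∃ D : ℕ, D = DD w s := ⟨_, rfl⟩
  have hD' : D = B * s + 2 * s * w + 2 * B := by rw [hD, hB]; rfl
  have hDpos : 0 < D := by omega
  have hDr : (0 : ℝ) < D := by exact_mod_cast hDpos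
  obtain ⟨U0, hU0⟩ := exists_nat_ge (12 * (D : ℝ) / c + 2 * B + 2 + 2 * ((t * t : ℕ) : ℝ) ^ 2)
  have hU1 : 12 * (D : ℝ) / c ≤ U0 := by
    have : (0 : ℝ) ≤ ((t * t : ℕ) : ℝ) ^ 2 := by positivity
    linarith
  have hU2 : 2 * (B : ℝ) + 2 ≤ U0 := by
    have : (0 : ℝ) ≤ 12 * (D : ℝ) / c := by positivity
    have : (0 : ℝ) ≤ ((t * t : ℕ) : ℝ) ^ 2 := by positivity
    linarith
  have hU4 : 2 * (t * t) ^ 2 ≤ U0 := by
    have : (0 : ℝ) ≤ 12 * (D : ℝ) / c := by positivity
    have h2 : 2 * ((t * t : ℕ) : ℝ) ^ 2 ≤ U0 := by linarith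
    exact_mod_cast h2
  rw [div_le_iff₀ hc] at hU1
  have hU3 : 2 * B + 2 ≤ U0 := by exact_mod_cast hU2
  refine ⟨t, w, s, 1 / (4 * D), by positivity, c / (8 * D), by positivity, ?_⟩
  rw [← hB]
  have hdiv := Nat.tendsto_div_const_atTop hDpos.ne'
  filter_upwards [hdiv.eventually (eventually_ge_atTop U0)] with N hN Y hY G wt hG hwt hbig
  obtain ⟨u, hu⟩ : ∃ u, u = N / D := ⟨_, rfl⟩
  rw [← hu] at hN
  have hdims : Dims N B (s * u) (ml w s u) u := by
    rw [hB]
    exact dims_of_div (by rw [hu, hD])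
  have hL : ∀ y : Fin N → Bool, lang 0 B s (List.ofFn y) ↔ Right (HK w s u) hdims y := fun y => by
    subst hB
    exact lang_iff (by rw [hu, hD]) hdims y
  have hu1 : 2 * B + 2 ≤ u := by omega
  have hu1' : 2 * (B : ℝ) + 2 ≤ u := by exact_mod_cast hu1
  have hupos : (0 : ℝ) < u := by
    have : (0 : ℝ) ≤ B := Nat.cast_nonneg _
    linarith
  have huD : u * D ≤ N := by rw [hu]; exact Nat.div_mul_le_self _ _
  have huD' : N < u * D + D := by
    have h1 := Nat.div_add_mod N D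
    have h2 := Nat.mod_lt N hDpos
    rw [← hu, mul_comm] at h1
    omega
  have hN0 : 0 < N := by
    have : 0 < u * D := by
      apply Nat.mul_pos _ hDpos
      omega
    omega
  have hNr : (0 : ℝ) < N := by exact_mod_cast hN0
  -- N ≤ 2 D u
  have hN2 : (N : ℝ) ≤ 2 * (D * u) := by
    have h1 : N ≤ 2 * (D * u) := by
      have h2 : D ≤ u * D := Nat.le_mul_of_pos_left _ (by omega)
      have h3 : D * u = u * D := mul_comm _ _
      omega
    exact_mod_cast h1
  have hεN : 1 / (4 * (D : ℝ)) * N ≤ u / 2 := by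
    calc 1 / (4 * (D : ℝ)) * N ≤ 1 / (4 * (D : ℝ)) * (2 * (D * u)) :=
          mul_le_mul_of_nonneg_left hN2 (by positivity)
      _ = u / 2 := by field_simp; ring
  -- the rest is small
  have hBn : B * (s * u) ≤ N := by
    have := hdims.le
    omega
  have hrest : ((N - B * (s * u) : ℕ) : ℝ) ≤ c / 4 * N := by
    rw [Nat.cast_sub hBn]
    have h1 : (N : ℝ) ≤ u * D + D := by exact_mod_cast huD'.le
    have h2 : (u : ℝ) * D ≤ N := by exact_mod_cast huD
    have h3 : (D : ℝ) = B * s + 2 * s * w + 2 * B := by rw [hD']; push_cast; ring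
    have h5 : (B : ℝ) * s * u ≤ N := by
      have : (u : ℝ) * D = B * s * u + u * (2 * s * w + 2 * B) := by rw [h3]; ring
      have : (0 : ℝ) ≤ u * (2 * s * w + 2 * B) := by positivity
      linarith
    -- three error terms
    have e1 : 2 * (s : ℝ) * w * u ≤ c / 12 * (B * s * u) := by
      calc 2 * (s : ℝ) * w * u = (24 * w) * (s * u / 12) := by ring
        _ ≤ (c * B) * (s * u / 12) := mul_le_mul_of_nonneg_right hwB (by positivity)
        _ = _ := by ring
    have e2 : 2 * (B : ℝ) * u ≤ c / 12 * (B * s * u) := by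
      calc 2 * (B : ℝ) * u = 24 * (B * u / 12) := by ring
        _ ≤ (s * c) * (B * u / 12) := mul_le_mul_of_nonneg_right hs2 (by positivity)
        _ = _ := by ring
    have e3 : (D : ℝ) ≤ c / 12 * (B * s * u) := by
      have h6 : (U0 : ℝ) ≤ u := by exact_mod_cast hN
      have h7 : (D : ℝ) ≤ c / 12 * u := by
        have : (U0 : ℝ) * c ≤ u * c := mul_le_mul_of_nonneg_right h6 hc.le
        linarith
      have h8 : (1 : ℝ) ≤ B * s := by nlinarith
      calc (D : ℝ) ≤ c / 12 * u := h7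
        _ = 1 * (c / 12 * u) := by ring
        _ ≤ (B * s) * (c / 12 * u) := mul_le_mul_of_nonneg_right h8 (by positivity)
        _ = _ := by ring
    have e4 : c / 12 * (B * s * u) ≤ c / 12 * N := mul_le_mul_of_nonneg_left h5 (by positivity)
    push_cast
    have h6 : (u : ℝ) * D = B * s * u + (2 * s * w * u + 2 * B * u) := by rw [h3]; ring
    have h7 : (B : ℝ) * (s * u) = B * s * u := by ring
    rw [h7]
    linarith
  -- numbers of words
  obtain ⟨Z, hZ⟩ : ∃ Z, Z = Finset.univ.filter (fun y : Fin N → Bool => Right (HK w s u) hdims y) := ⟨_, rfl⟩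
  have hZe : (Finset.univ.filter (fun y : Fin N → Bool => lang 0 B s (List.ofFn y))) = Z := by
    rw [hZ]
    apply Finset.filter_congr
    intro y _
    exact hL y
  rw [hZe] at hbig
  have hZpos : 0 < Z.card := by
    apply Finset.card_pos.2
    refine ⟨setSh hdims (fun _ => false) (hs (HK w s u) hdims (fun _ => false)), ?_⟩
    rw [hZ]
    exact Finset.mem_filter.2 ⟨Finset.mem_univ _, right_fix (HK w s u) hdims _⟩
  have hZr : (0 : ℝ) < Z.card := by exact_mod_cast hZpos
  have hbad := card_bad (HK w s u) hdims (card_bad_HK w s u t hs4 ht (by omega) (by omega))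
  rw [← hZ] at hbad
  obtain ⟨Zb, hZb⟩ : ∃ Zb, Zb = Finset.univ.filter (fun y : Fin N → Bool => Right (HK w s u) hdims y ∧
    Bad (HK w s u) t (sa hdims y)) := ⟨_, rfl⟩
  rw [← hZb] at hbad
  -- good part of G
  obtain ⟨G1, hG1⟩ : ∃ G1, G1 = G.filter (fun y => ¬ Bad (HK w s u) t (sa hdims y)) :=
    ⟨_, rfl⟩
  have hGR : ∀ y ∈ G, Right (HK w s u) hdims y := fun y hy => (hL y).1 (hG y hy)
  have hsplit : G.card ≤ G1.card + Zb.card := by
    have h1 : G ⊆ G1 ∪ Zb := by
      intro y hy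
      by_cases hb : Bad (HK w s u) t (sa hdims y)
      · apply Finset.mem_union_right
        rw [hZb]
        exact Finset.mem_filter.2 ⟨Finset.mem_univ _, hGR y hy, hb⟩
      · apply Finset.mem_union_left
        rw [hG1]
        exact Finset.mem_filter.2 ⟨hy, hb⟩
    exact (Finset.card_le_card h1).trans (Finset.card_union_le _ _)
  obtain ⟨E, hE⟩ : ∃ E : ℝ, E = (2 : ℝ) ^ (-(1 / (4 * (D : ℝ)) * N)) := ⟨_, rfl⟩
  rw [← hE] at hbig
  have hElow : (2 : ℝ) ^ (-((u : ℝ) / 2)) ≤ E := by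
    rw [hE]
    apply Real.rpow_le_rpow_of_exponent_le (by norm_num)
    linarith
  have hEpos : 0 < E := by rw [hE]; positivity
  have hZbr : (Zb.card : ℝ) ≤ E / 2 * Z.card := by
    have h1 : (Zb.card : ℝ) * 2 ^ (2 * u) ≤ Z.card := by exact_mod_cast hbad
    have h2 : (1 : ℝ) ≤ E / 2 * 2 ^ (2 * u) := by
      have h3 : (2 : ℝ) ^ (2 * u) = 2 ^ (2 * (u : ℝ)) := by
        rw [← Real.rpow_natCast]; push_cast; rfl
      have h4 : (2 : ℝ) ^ (1 : ℝ) ≤ 2 ^ (-((u : ℝ) / 2)) * 2 ^ (2 * (u : ℝ)) := by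
        rw [← Real.rpow_add (by norm_num)]
        apply Real.rpow_le_rpow_of_exponent_le (by norm_num)
        linarith
      rw [Real.rpow_one] at h4
      rw [h3]
      have h5 : (0 : ℝ) < 2 ^ (2 * (u : ℝ)) := by positivity
      have := mul_le_mul_of_nonneg_right hElow h5.le
      linarith
    have h3 : (Zb.card : ℝ) ≤ (Zb.card : ℝ) * (E / 2 * 2 ^ (2 * u)) :=
      le_mul_of_one_le_right (Nat.cast_nonneg _) h2
    calc (Zb.card : ℝ) ≤ (Zb.card : ℝ) * (E / 2 * 2 ^ (2 * u)) := h3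
      _ = E / 2 * (Zb.card * 2 ^ (2 * u)) := by ring
      _ ≤ E / 2 * Z.card := mul_le_mul_of_nonneg_left h1 (by positivity)
  have hG1c : E / 2 * Z.card ≤ G1.card := by
    have h1 : (G.card : ℝ) ≤ G1.card + Zb.card := by exact_mod_cast hsplit
    have h2 : E * Z.card = E / 2 * Z.card + E / 2 * Z.card := by ring
    linarith
  -- blocks
  have hblk : ∀ y ∈ G1, ∃ b : Fin B, c / 4 * ((s * u : ℕ) : ℝ) ≤ (Y ∩ Blk hdims b).card ∧
      ∑ i ∈ Y ∩ Blk hdims b, wt y i ≤ k' * (Y ∩ Blk hdims b).card := by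
    intro y hy
    rw [hG1] at hy
    exact exists_block hdims Y (wt y) hc hk' hN0 hY hrest hBn (hwt y (Finset.mem_filter.1 hy).1)
  let Gb : Fin B → Finset (Fin N → Bool) := fun b => G1.filter (fun y =>
    c / 4 * ((s * u : ℕ) : ℝ) ≤ (Y ∩ Blk hdims b).card ∧
      ∑ i ∈ Y ∩ Blk hdims b, wt y i ≤ k' * (Y ∩ Blk hdims b).card)
  have hcov : G1 ⊆ (Finset.univ : Finset (Fin B)).biUnion Gb := by
    intro y hy
    obtain ⟨b, hb⟩ := hblk y hy
    exact Finset.mem_biUnion.2 ⟨b, Finset.mem_univ _, Finset.mem_filter.2 ⟨hy, hb⟩⟩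
  obtain ⟨b, hb⟩ : ∃ b, (G1.card : ℝ) ≤ B * (Gb b).card := by
    by_contra hno
    push Not at hno
    have h1 : (G1.card : ℝ) ≤ ∑ b : Fin B, ((Gb b).card : ℝ) := by
      have := (Finset.card_le_card hcov).trans Finset.card_biUnion_le
      exact_mod_cast this
    have h2 : (B : ℝ) * ∑ b : Fin B, ((Gb b).card : ℝ) < B * G1.card := by
      rw [Finset.mul_sum]
      have h3 : ∑ b : Fin B, (B : ℝ) * ((Gb b).card : ℝ) < ∑ _b : Fin B, (G1.card : ℝ) := by
        apply Finset.sum_lt_sum_of_nonempty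
        · exact ⟨⟨0, hB3⟩, Finset.mem_univ _⟩
        · intro b _
          exact hno b
      rwa [Finset.sum_const, Finset.card_univ, Fintype.card_fin, nsmul_eq_mul] at h3
    have h3 : (B : ℝ) * G1.card ≤ B * ∑ b : Fin B, ((Gb b).card : ℝ) :=
      mul_le_mul_of_nonneg_left h1 (by positivity)
    linarith
  have hG1pos : (0 : ℝ) < G1.card := lt_of_lt_of_le (by positivity) hG1c
  have hGbpos : (0 : ℝ) < (Gb b).card := by
    by_contra hcon
    have h1 : ((Gb b).card : ℝ) = 0 := le_antisymm (not_lt.1 hcon) (Nat.cast_nonneg _)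
    rw [h1, mul_zero] at hb
    linarith
  obtain ⟨y1, hy1⟩ : (Gb b).Nonempty := Finset.card_pos.1 (by exact_mod_cast hGbpos)
  have hYc : c / 4 * ((s * u : ℕ) : ℝ) ≤ (Y ∩ Blk hdims b).card := (Finset.mem_filter.1 hy1).2.1
  obtain ⟨Y', hY'⟩ : ∃ Y', Y' = Y ∩ Blk hdims b := ⟨_, rfl⟩
  rw [← hY'] at hYc
  have hGbR : ∀ y ∈ Gb b, Right (HK w s u) hdims y := fun y hy => by
    have h1 := (Finset.mem_filter.1 hy).1
    rw [hG1] at h1
    exact hGR y (Finset.mem_filter.1 h1).1
  -- the dense slice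
  have hdense : (2 : ℝ) ^ Y'.card * Real.exp (-(ε0 * Y'.card)) *
      (((Finset.univ.filter (fun y : Fin N → Bool => Right (HK w s u) hdims y)).card : ℝ) * 2 ^ u) <
      (Gb b).card * 2 ^ Y'.card := by
    rw [← hZ]
    have h1 : 4 * (u : ℝ) ≤ ε0 * Y'.card := by
      have h2 : (16 : ℝ) ≤ s * (ε0 * c) := hs1
      have h3 : ε0 * (c / 4 * ((s * u : ℕ) : ℝ)) ≤ ε0 * Y'.card :=
        mul_le_mul_of_nonneg_left hYc hε0.le
      have h4 : ε0 * (c / 4 * ((s * u : ℕ) : ℝ)) = (s * (ε0 * c)) / 4 * u := by push_cast; ring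
      have h5 : 4 * (u : ℝ) ≤ (s * (ε0 * c)) / 4 * u := by
        apply mul_le_mul_of_nonneg_right _ hupos.le
        linarith
      linarith
    have h2 : Real.exp (-(ε0 * Y'.card)) ≤ 2 ^ (-(4 * (u : ℝ))) := by
      rw [Real.rpow_def_of_pos (by norm_num)]
      apply Real.exp_le_exp.2
      have h3 : Real.log 2 < 1 := by
        have := Real.log_two_lt_d9
        linarith
      nlinarith
    have h3 : (1 : ℝ) * (2 * B) < 2 ^ u := by
      have h4 : 2 * B < 2 ^ u := lt_of_le_of_lt (by omega : 2 * B ≤ u) Nat.lt_two_pow_self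
      rw [one_mul]
      exact_mod_cast h4
    -- lower bound for Gb
    have h5 : E * Z.card ≤ 2 * B * (Gb b).card := by
      have h6 : E / 2 * Z.card ≤ B * (Gb b).card := hG1c.trans hb
      linarith
    have h6 : (2 : ℝ) ^ (-((u : ℝ) / 2)) * Z.card ≤ 2 * B * (Gb b).card :=
      (mul_le_mul_of_nonneg_right hElow hZr.le).trans h5
    have h7 : (2 : ℝ) ^ (-((u : ℝ) / 2)) * Z.card < 2 ^ u * (Gb b).card := by
      refine lt_of_le_of_lt h6 ?_
      rw [one_mul] at h3
      exact mul_lt_mul_of_pos_right h3 hGbpos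
    have h8 : (0 : ℝ) < 2 ^ Y'.card := by positivity
    have h9 : Real.exp (-(ε0 * Y'.card)) * (Z.card * 2 ^ u) < (Gb b).card := by
      calc Real.exp (-(ε0 * Y'.card)) * (Z.card * 2 ^ u)
          ≤ 2 ^ (-(4 * (u : ℝ))) * (Z.card * 2 ^ u) :=
            mul_le_mul_of_nonneg_right h2 (by positivity)
        _ = (2 ^ (-((u : ℝ) / 2)) * Z.card) * 2 ^ (-(5 / 2 * (u : ℝ))) := by
            have e1 : (2 : ℝ) ^ u = 2 ^ (u : ℝ) := (Real.rpow_natCast 2 u).symm
            rw [e1]
            have e2 : (2 : ℝ) ^ (-(4 * (u : ℝ))) * 2 ^ (u : ℝ) =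
                2 ^ (-((u : ℝ) / 2)) * 2 ^ (-(5 / 2 * (u : ℝ))) := by
              rw [← Real.rpow_add (by norm_num), ← Real.rpow_add (by norm_num)]
              congr 1
              ring
            calc (2 : ℝ) ^ (-(4 * (u : ℝ))) * (Z.card * 2 ^ (u : ℝ))
                = ((2 : ℝ) ^ (-(4 * (u : ℝ))) * 2 ^ (u : ℝ)) * Z.card := by ring
              _ = _ := by rw [e2]; ring
        _ < (2 ^ u * (Gb b).card) * 2 ^ (-(5 / 2 * (u : ℝ))) :=
            mul_lt_mul_of_pos_right h7 (by positivity)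
        _ = (Gb b).card * 2 ^ (-(3 / 2 * (u : ℝ))) := by
            have e1 : (2 : ℝ) ^ u = 2 ^ (u : ℝ) := (Real.rpow_natCast 2 u).symm
            rw [e1]
            have e2 : (2 : ℝ) ^ (u : ℝ) * 2 ^ (-(5 / 2 * (u : ℝ))) = 2 ^ (-(3 / 2 * (u : ℝ))) := by
              rw [← Real.rpow_add (by norm_num)]
              congr 1
              ring
            calc (2 : ℝ) ^ (u : ℝ) * (Gb b).card * 2 ^ (-(5 / 2 * (u : ℝ)))
                = (Gb b).card * (2 ^ (u : ℝ) * 2 ^ (-(5 / 2 * (u : ℝ)))) := by ring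
              _ = _ := by rw [e2]
        _ ≤ (Gb b).card * 1 := by
            apply mul_le_mul_of_nonneg_left _ hGbpos.le
            apply Real.rpow_le_one_of_one_le_of_nonpos (by norm_num)
            linarith
        _ = (Gb b).card := mul_one _
    calc (2 : ℝ) ^ Y'.card * Real.exp (-(ε0 * Y'.card)) * (Z.card * 2 ^ u)
        = 2 ^ Y'.card * (Real.exp (-(ε0 * Y'.card)) * (Z.card * 2 ^ u)) := by ring
      _ < 2 ^ Y'.card * (Gb b).card := mul_lt_mul_of_pos_left h9 h8
      _ = _ := by ring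
  obtain ⟨base, hbase⟩ := exists_slice (HK w s u) hdims b Y' (by rw [hY']; exact Finset.inter_subset_right)
    (Gb b) hGbR (by positivity) hdense
  refine ⟨Y', by rw [hY']; exact Finset.inter_subset_left, ?_, base, ?_, ?_⟩
  · -- size
    have h1 : c / (8 * (D : ℝ)) * N ≤ c / 4 * u := by
      calc c / (8 * (D : ℝ)) * N ≤ c / (8 * (D : ℝ)) * (2 * (D * u)) :=
            mul_le_mul_of_nonneg_left hN2 (by positivity)
        _ = c / 4 * u := by field_simp; ring
    have h2 : c / 4 * (u : ℝ) ≤ c / 4 * ((s * u : ℕ) : ℝ) := by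
      apply mul_le_mul_of_nonneg_left _ (by positivity)
      exact_mod_cast Nat.le_mul_of_pos_left u hs4
    linarith
  · -- rectangle-free
    have h1 : 0 < (Finset.univ.filter (fun x : Fin Y'.card → Bool => paste Y' base x ∈ Gb b)).card := by
      have : (0 : ℝ) < ((Finset.univ.filter (fun x : Fin Y'.card → Bool =>
          paste Y' base x ∈ Gb b)).card : ℝ) := lt_of_lt_of_le (by positivity) hbase
      exact_mod_cast this
    obtain ⟨x0, hx0⟩ := Finset.card_pos.1 h1
    have hx1 := (Finset.mem_filter.1 hx0).2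
    have hx2 := (Finset.mem_filter.1 hx1).1
    rw [hG1] at hx2
    have hx3 := (Finset.mem_filter.1 hx2).2
    have h2 := slice_rectFree (HK w s u) hdims b Y' (by rw [hY']; exact Finset.inter_subset_right) base x0 hx3
    have h3 : {x : Fin Y'.card → Bool | lang 0 B s (List.ofFn (paste Y' base x))} =
        {x : Fin Y'.card → Bool | Right (HK w s u) hdims (paste Y' base x)} := by
      ext x
      exact hL _
    rw [h3]
    exact h2
  · refine hbase.trans ?_
    have h1 : (Finset.univ.filter (fun x : Fin Y'.card → Bool => paste Y' base x ∈ Gb b)) ⊆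
        (Finset.univ.filter (fun x : Fin Y'.card → Bool => paste Y' base x ∈ G ∧
            ∑ i ∈ Y', wt (paste Y' base x) i ≤ k' * Y'.card)) := by
      intro x hx
      have h2 := Finset.mem_filter.1 (Finset.mem_filter.1 hx).2
      refine Finset.mem_filter.2 ⟨Finset.mem_univ _, ?_, ?_⟩
      · have h3 := h2.1
        rw [hG1] at h3
        exact (Finset.mem_filter.1 h3).1
      · have h3 := h2.2.2
        revert h3
        generalize paste Y' base x = z
        intro h3
        rw [hY']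
        exact h3
    exact_mod_cast Finset.card_le_card h1

end Pool.Agent.LP44
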