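import Pool.Agent.LP44.Final

/-! One language for all parameters: the parameters are a prefix of the word. -/

namespace Pool.Agent.LP44

open Pool.Agent.JT hiding paste
open Pool.Agent.KNL (bit run pT pS off0)
open Filter

/-- the prefix which encodes two parameters -/
def pre (T s : ℕ) : List Bool := List.replicate T true ++ false :: (List.replicate s true ++ [false])

lemma pre_length (T s : ℕ) : (pre T s).length = T + s + 2 := by
  unfold pre
  simp only [List.length_append, List.length_replicate, List.length_cons, List.length_nil]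
  omega

lemma bit_append_lt (u v : List Bool) (i : ℕ) (h : i < u.length) :
    bit (u ++ v) i = bit u i := by
  unfold bit
  rw [List.getD_append _ _ _ _ h]

lemma bit_pre (T s i : ℕ) (hi : i < T + s + 2) :
    bit (pre T s) i = if i = T ∨ i = T + s + 1 then 0 else 1 := by
  unfold bit pre
  by_cases h1 : i < T
  · rw [List.getD_append _ _ _ _ (by simpa using h1), List.getD_replicate _ h1]
    rw [if_neg (by omega)]
    rfl
  · rw [List.getD_append_right _ _ _ _ (by simpa using h1), List.length_replicate]
    obtain ⟨j, hj⟩ : ∃ j, i = T + j := ⟨i - T, by omega⟩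
    subst hj
    rw [Nat.add_sub_cancel_left]
    cases j with
    | zero => simp
    | succ j =>
      rw [List.getD_cons_succ]
      by_cases h2 : j < s
      · rw [List.getD_append _ _ _ _ (by simpa using h2), List.getD_replicate _ h2]
        rw [if_neg (by omega)]
        rfl
      · have : j = s := by omega
        subst this
        rw [List.getD_append_right _ _ _ _ (by simp), List.length_replicate, Nat.sub_self]
        rw [if_pos (by omega)]
        rfl

lemma pT_pre (T s : ℕ) (v : List Bool) : pT (pre T s ++ v) = T := by
  unfold pT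
  apply Pool.Agent.KNL.run_unique
  · rw [List.length_append, pre_length]; omega
  · intro i hi
    rw [zero_add, bit_append_lt _ _ _ (by rw [pre_length]; omega), bit_pre _ _ _ (by omega),
      if_neg (by omega)]
  · rw [zero_add, bit_append_lt _ _ _ (by rw [pre_length]; omega), bit_pre _ _ _ (by omega),
      if_pos (by omega)]
    norm_num

lemma pS_pre (T s : ℕ) (v : List Bool) : pS (pre T s ++ v) = s := by
  unfold pS
  rw [pT_pre]
  apply Pool.Agent.KNL.run_unique
  · rw [List.length_append, pre_length]; omega
  · intro i hi
    rw [bit_append_lt _ _ _ (by rw [pre_length]; omega), bit_pre _ _ _ (by omega),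
      if_neg (by omega)]
  · rw [bit_append_lt _ _ _ (by rw [pre_length]; omega), bit_pre _ _ _ (by omega),
      if_pos (by omega)]
    norm_num

lemma off0_pre (T s : ℕ) (v : List Bool) : off0 (pre T s ++ v) = (pre T s).length := by
  unfold off0
  rw [pT_pre, pS_pre, pre_length]

lemma lang_congr {o o' T s : ℕ} {y y' : List Bool} (h1 : y.length - o = y'.length - o')
    (h2 : ∀ i, bt o y i = bt o' y' i) : lang o T s y ↔ lang o' T s y' := by
  have h3 : un o T s y = un o' T s y' := by
    unfold un
    rw [h1]
  have h4 : ∀ b j q, par o T s y b j q = par o' T s y' b j q := by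
    intro b j q
    unfold par
    rw [h3]
    congr 1
    refine Finset.sum_congr rfl fun i _ => ?_
    rw [h2, h2]
  unfold lang
  simp only [h3, h4, h2]

lemma LL_pre (T s : ℕ) (v : List Bool) : LL (pre T s ++ v) ↔ lang 0 T s v := by
  unfold LL
  rw [off0_pre, pT_pre, pS_pre]
  apply lang_congr
  · rw [List.length_append]
    omega
  · intro i
    unfold bt
    rw [List.getD_append_right _ _ _ _ (by omega), zero_add, Nat.add_sub_cancel_left]

/-- the word `π v` -/
def app (π : List Bool) {M : ℕ} (x : Fin M → Bool) : Fin (π.length + M) → Bool :=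
  Fin.append π.get x

lemma ofFn_app (π : List Bool) {M : ℕ} (x : Fin M → Bool) :
    List.ofFn (app π x) = π ++ List.ofFn x := by
  unfold app
  rw [List.ofFn_fin_append, List.ofFn_get]

lemma app_natAdd (π : List Bool) {M : ℕ} (x : Fin M → Bool) (i : Fin M) :
    app π x (Fin.natAdd π.length i) = x i := by
  unfold app
  rw [Fin.append_right]

lemma app_inj (π : List Bool) {M : ℕ} : Function.Injective (app π (M := M)) := by
  intro x y h
  funext i
  rw [← app_natAdd π x i, h, app_natAdd]

lemma exists_app (π : List Bool) {M : ℕ} (y : Fin (π.length + M) → Bool)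
    (h : π <+: List.ofFn y) : ∃ x, app π x = y := by
  refine ⟨fun i => y (Fin.natAdd π.length i), ?_⟩
  apply List.ofFn_injective
  rw [ofFn_app]
  obtain ⟨t, ht⟩ := h
  rw [← ht]
  congr 1
  have hlen : t.length = M := by
    have := congrArg List.length ht
    rw [List.length_append, List.length_ofFn] at this
    omega
  apply List.ext_getElem
  · rw [List.length_ofFn, hlen]
  · intro i h1 h2
    rw [List.getElem_ofFn]
    have h3 : (List.ofFn y)[π.length + i]'(by rw [List.length_ofFn]; omega) = t[i] := by
      have : (π ++ t)[π.length + i]'(by rw [List.length_append]; omega) = t[i] := by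
        rw [List.getElem_append_right (by omega)]
        congr 1
        omega
      rw [← this]
      congr 1
      exact ht.symm
    rw [← h3, List.getElem_ofFn]
    rfl

open Classical in
lemma card_app (π : List Bool) {M : ℕ} (P : (Fin (π.length + M) → Bool) → Prop) :
    (Finset.univ.filter (fun y : Fin (π.length + M) → Bool => π <+: List.ofFn y ∧ P y)).card =
      (Finset.univ.filter (fun x : Fin M → Bool => P (app π x))).card := by
  symm
  refine Finset.card_bij (fun x _ => app π x) ?_ ?_ ?_
  · intro x hx
    refine Finset.mem_filter.2 ⟨Finset.mem_univ _, ?_, (Finset.mem_filter.1 hx).2⟩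
    rw [ofFn_app]
    exact List.prefix_append _ _
  · intro x _ y _ h
    exact app_inj π h
  · intro y hy
    obtain ⟨h1, h2⟩ := (Finset.mem_filter.1 hy).2
    obtain ⟨x, rfl⟩ := exists_app π y h1
    exact ⟨x, Finset.mem_filter.2 ⟨Finset.mem_univ _, h2⟩, rfl⟩

/-- decided in polynomial time by a Turing machine (Mathlib's `TM2` model) -/
def PolyTime (L : List Bool → Prop) : Prop :=
  ∃ f : List Bool → Bool, (∀ w, f w = true ↔ L w) ∧
    Nonempty (Turing.TM2ComputableInPolyTime (id : List Bool → List Bool)
      (id : List Bool → List Bool) (fun w => [f w]))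

lemma LL_poly : PolyTime LL := by
  classical
  exact ⟨fun w => decide (LL w), fun w => by simp, LL_polyTime⟩

open Classical in
/-- the bound for one language and all parameters -/
theorem circ_all (k : ℕ) (c : ℝ) (hc : 0 < c) : ∃ (π : List Bool) (ε : ℝ), 0 < ε ∧
    ∀ᶠ N : ℕ in atTop, ∀ (Y : Finset (Fin N)) (m : ℕ) (C : Circuit m)
      (f : Fin m → (Fin N → Bool) → Bool) (W : Fin m → Finset (Fin N)),
      c * N ≤ Y.card → (∀ j, W j ⊆ Y ∧ ((W j).card : ℝ) ≤ ε * N) →
      (∀ j x y, (∀ i, i ∉ Y ∨ i ∈ W j → x i = y i) → f j x = f j y) →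
      (∀ x, C.eval (fun j => f j x) = true → LL (List.ofFn x)) →
      (2 : ℝ) ^ (-(ε * N)) * ((Finset.univ.filter (fun x : Fin N → Bool =>
          π <+: List.ofFn x ∧ LL (List.ofFn x))).card : ℝ) ≤
        ((Finset.univ.filter (fun x : Fin N → Bool => π <+: List.ofFn x ∧
          ∃ l, C.Just (fun j => f j x) C.out true l ∧
            (l.map (fun j => (W j).card)).sum ≤ k * N)).card : ℝ) →
      (2 : ℝ) ^ (ε * N) ≤ C.size := by
  obtain ⟨w, s, ε, hε, hev⟩ := circ_fixed (2 * k) (c / 2) (by positivity)
  obtain ⟨π, hπ⟩ : ∃ π, π = pre (2 ^ w) s := ⟨_, rfl⟩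
  refine ⟨π, ε / 2, by positivity, ?_⟩
  obtain ⟨N0, hN0⟩ := exists_nat_ge (2 * (π.length : ℝ) / c)
  have hev' := (tendsto_sub_atTop_nat π.length).eventually
    (hev.and (eventually_ge_atTop (N0 + π.length)))
  filter_upwards [hev', eventually_ge_atTop π.length] with N hN hNl
  obtain ⟨M, rfl⟩ : ∃ M, N = π.length + M := ⟨N - π.length, by omega⟩
  rw [Nat.add_sub_cancel_left] at hN
  obtain ⟨hN, hM⟩ := hN
  have hMr : (N0 : ℝ) + π.length ≤ M := by exact_mod_cast hM
  have hN0' : (0 : ℝ) ≤ N0 := Nat.cast_nonneg _
  have hl0 : (0 : ℝ) ≤ π.length := Nat.cast_nonneg _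
  rw [div_le_iff₀ hc] at hN0
  intro Y m C f W hY hWY hW hs hbig
  have hcast : ((π.length + M : ℕ) : ℝ) = π.length + M := by push_cast; ring
  have h2M : ((π.length + M : ℕ) : ℝ) ≤ 2 * M := by rw [hcast]; linarith
  obtain ⟨Y', hY'⟩ : ∃ Y' : Finset (Fin M), Y' = Finset.univ.filter
    (fun i => Fin.natAdd π.length i ∈ Y) := ⟨_, rfl⟩
  let W' : Fin m → Finset (Fin M) := fun j => Finset.univ.filter
    (fun i => Fin.natAdd π.length i ∈ W j)
  have hWc : ∀ j, (W' j ∩ Y').card ≤ (W j).card := by
    intro j
    apply Finset.card_le_card_of_injOn (Fin.natAdd π.length)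
    · intro i hi
      exact (Finset.mem_filter.1 (Finset.mem_inter.1 hi).1).2
    · intro i _ i' _ h
      exact Fin.natAdd_injective _ _ h
  have hYc : (Y.card : ℝ) ≤ Y'.card + π.length := by
    have h1 : Y ⊆ Y'.image (Fin.natAdd π.length) ∪
        (Finset.univ : Finset (Fin π.length)).image (Fin.castAdd M) := by
      intro i hi
      induction i using Fin.addCases with
      | left i => exact Finset.mem_union_right _ (Finset.mem_image_of_mem _ (Finset.mem_univ _))
      | right i =>
        refine Finset.mem_union_left _ (Finset.mem_image_of_mem _ ?_)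
        rw [hY']
        exact Finset.mem_filter.2 ⟨Finset.mem_univ _, hi⟩
    have h2 := (Finset.card_le_card h1).trans (Finset.card_union_le _ _)
    have h3 : (Y'.image (Fin.natAdd π.length)).card ≤ Y'.card := Finset.card_image_le
    have h4 : ((Finset.univ : Finset (Fin π.length)).image (Fin.castAdd M)).card ≤ π.length := by
      refine Finset.card_image_le.trans ?_
      rw [Finset.card_univ, Fintype.card_fin]
    have h5 : Y.card ≤ Y'.card + π.length := by omega
    exact_mod_cast h5
  have hmain := hN Y' m C (fun j x => f j (app π x)) W' (by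
      have h1 : (N0 : ℝ) * c ≤ M * c := mul_le_mul_of_nonneg_right (by linarith) hc.le
      have h2 : c * ((π.length + M : ℕ) : ℝ) = c * π.length + c * M := by rw [hcast]; ring
      have h3 : 0 ≤ c * (π.length : ℝ) := by positivity
      linarith) (by
      intro j
      have h1 : ((W' j ∩ Y').card : ℝ) ≤ (W j).card := by exact_mod_cast hWc j
      have h2 : ε / 2 * ((π.length + M : ℕ) : ℝ) ≤ ε / 2 * (2 * M) :=
        mul_le_mul_of_nonneg_left h2M (by positivity)
      have h3 := (hWY j).2
      linarith) (by
      intro j x y hxy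
      apply hW
      intro i hi
      induction i using Fin.addCases with
      | left i => unfold app; rw [Fin.append_left, Fin.append_left]
      | right i =>
        rw [app_natAdd, app_natAdd]
        apply hxy
        rcases hi with hi | hi
        · left
          intro hc
          rw [hY'] at hc
          exact hi (Finset.mem_filter.1 hc).2
        · right
          exact Finset.mem_filter.2 ⟨Finset.mem_univ _, hi⟩) (by
      intro x hx
      have h1 := hs (app π x) hx
      rw [ofFn_app, hπ, LL_pre] at h1
      exact h1) (by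
      have h1 := card_app π (M := M) (fun y => LL (List.ofFn y))
      have h2 := card_app π (M := M) (fun y => ∃ l, C.Just (fun j => f j y) C.out true l ∧
            (l.map (fun j => (W j).card)).sum ≤ k * (π.length + M))
      have h3 : (Finset.univ.filter (fun x : Fin M → Bool => LL (List.ofFn (app π x)))) =
          Finset.univ.filter (fun x : Fin M → Bool => lang 0 (2 ^ w) s (List.ofFn x)) := by
        apply Finset.filter_congr
        intro x _
        rw [ofFn_app, hπ, LL_pre]
      rw [h3] at h1
      rw [h1, h2] at hbig
      have hexp : (2 : ℝ) ^ (-(ε * M)) ≤ 2 ^ (-(ε / 2 * ((π.length + M : ℕ) : ℝ))) := by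
        apply Real.rpow_le_rpow_of_exponent_le (by norm_num)
        have : ε / 2 * ((π.length + M : ℕ) : ℝ) ≤ ε / 2 * (2 * M) :=
          mul_le_mul_of_nonneg_left h2M (by positivity)
        linarith
      refine (mul_le_mul_of_nonneg_right hexp (Nat.cast_nonneg _)).trans (hbig.trans ?_)
      have h4 : (Finset.univ.filter (fun x : Fin M → Bool =>
          ∃ l, C.Just (fun j => f j (app π x)) C.out true l ∧
            (l.map (fun j => (W j).card)).sum ≤ k * (π.length + M))) ⊆
          (Finset.univ.filter (fun x : Fin M → Bool => lang 0 (2 ^ w) s (List.ofFn x) ∧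
          ∃ l, C.Just (fun j => f j (app π x)) C.out true l ∧
            (l.map (fun j => (W' j ∩ Y').card)).sum ≤ 2 * k * M)) := by
        intro x hx
        obtain ⟨l, hl1, hl2⟩ := (Finset.mem_filter.1 hx).2
        refine Finset.mem_filter.2 ⟨Finset.mem_univ _, ?_, l, hl1, ?_⟩
        · have h5 := hs (app π x) (Circuit.just_sound hl1)
          rw [ofFn_app, hπ, LL_pre] at h5
          exact h5
        · have h6 : (l.map (fun j => (W' j ∩ Y').card)).sum ≤ (l.map (fun j => (W j).card)).sum := by
            apply List.sum_le_sum
            intro j _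
            exact hWc j
          have h7 : π.length + M ≤ 2 * M := by omega
          calc (l.map (fun j => (W' j ∩ Y').card)).sum ≤ k * (π.length + M) := h6.trans hl2
            _ ≤ k * (2 * M) := Nat.mul_le_mul_left _ h7
            _ = 2 * k * M := by ring
      exact_mod_cast Finset.card_le_card h4)
  refine le_trans ?_ hmain
  apply Real.rpow_le_rpow_of_exponent_le (by norm_num)
  have : ε / 2 * ((π.length + M : ℕ) : ℝ) ≤ ε / 2 * (2 * M) :=
    mul_le_mul_of_nonneg_left h2M (by positivity)
  linarith

end Pool.Agent.LP44
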