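import Pool.Agent.LP44.Words

/-! Every dense set of words of the language contains a dense slice over a part of a block whose
share of the reads is small. -/

namespace Pool.Agent.LP44

open Pool.Agent.JT hiding paste
open Pool.Agent.SemRO (mix RectFree)
open Pool.Agent.PT44 (paste card_slices card_rest)

variable {N B n m u : ℕ}

lemma blk_cover (h : Dims N B n m u) (Y : Finset (Fin N)) :
    Y.card ≤ ∑ b : Fin B, (Y ∩ Blk h b).card + (N - B * n) := by
  classical
  have h1 : Y ⊆ ((Finset.univ : Finset (Fin B)).biUnion (fun b => Y ∩ Blk h b)) ∪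
      Finset.univ.filter (fun i : Fin N => B * n ≤ (i : ℕ)) := by
    intro i hi
    by_cases hiB : (i : ℕ) < B * n
    · have hn : 0 < n := by
        rcases Nat.eq_zero_or_pos n with h0 | h0
        · subst h0; simp at hiB
        · exact h0
      have hdiv : (i : ℕ) / n < B := (Nat.div_lt_iff_lt_mul hn).2 hiB
      refine Finset.mem_union_left _ (Finset.mem_biUnion.2 ⟨⟨(i : ℕ) / n, hdiv⟩,
        Finset.mem_univ _, Finset.mem_inter.2 ⟨hi, mem_Blk.2 ⟨?_, ?_⟩⟩⟩)
      · exact Nat.div_mul_le_self _ _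
      · have := Nat.lt_succ_self ((i : ℕ) / n)
        have h2 := Nat.div_add_mod (i : ℕ) n
        have h3 := Nat.mod_lt (i : ℕ) hn
        change (i : ℕ) < ((i : ℕ) / n + 1) * n
        have h4 : ((i : ℕ) / n + 1) * n = n * ((i : ℕ) / n) + n := by ring
        omega
    · exact Finset.mem_union_right _ (Finset.mem_filter.2 ⟨Finset.mem_univ _, not_lt.1 hiB⟩)
  refine (Finset.card_le_card h1).trans ((Finset.card_union_le _ _).trans ?_)
  apply add_le_add Finset.card_biUnion_le
  have h2 : (Finset.univ.filter (fun i : Fin N => B * n ≤ (i : ℕ))).card ≤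
      (Finset.Ico (B * n) N).card := by
    apply Finset.card_le_card_of_injOn (fun i : Fin N => (i : ℕ))
    · intro i hi
      exact Finset.mem_coe.2 (Finset.mem_Ico.2 ⟨(Finset.mem_filter.1 hi).2, i.2⟩)
    · intro i _ j _ hij
      exact Fin.ext hij
  rwa [Nat.card_Ico] at h2

lemma blk_sum (h : Dims N B n m u) (Y : Finset (Fin N)) (w : Fin N → ℕ) :
    ∑ b : Fin B, ∑ i ∈ Y ∩ Blk h b, w i ≤ ∑ i ∈ Y, w i := by
  classical
  have h1 : ∑ b : Fin B, ∑ i ∈ Y ∩ Blk h b, w i =
      ∑ i ∈ Y, ∑ b : Fin B, (if i ∈ Blk h b then w i else 0) := by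
    rw [Finset.sum_comm]
    refine Finset.sum_congr rfl fun b _ => ?_
    rw [← Finset.sum_filter, Finset.filter_mem_eq_inter]
  rw [h1]
  refine Finset.sum_le_sum fun i _ => ?_
  rw [← Finset.sum_filter, Finset.sum_const, smul_eq_mul]
  have h2 : (Finset.univ.filter (fun b : Fin B => i ∈ Blk h b)).card ≤ 1 := by
    rw [Finset.card_le_one]
    intro b hb b' hb'
    have e1 := mem_Blk.1 (Finset.mem_filter.1 hb).2
    have e2 := mem_Blk.1 (Finset.mem_filter.1 hb').2
    apply Fin.ext
    by_contra hne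
    rcases lt_or_gt_of_ne hne with h4 | h4
    · have h5 : ((b : ℕ) + 1) * n ≤ b' * n := Nat.mul_le_mul_right _ h4
      omega
    · have h5 : ((b' : ℕ) + 1) * n ≤ b * n := Nat.mul_le_mul_right _ h4
      omega
  calc _ ≤ 1 * w i := Nat.mul_le_mul_right _ h2
    _ = w i := one_mul _

/-- some block contains many counted variables and its share of the reads is small -/
lemma exists_block (h : Dims N B n m u) (Y : Finset (Fin N)) (w : Fin N → ℕ) {c : ℝ}
    (hc : 0 < c) {k0 k' : ℕ} (hk' : 2 * (k0 : ℝ) ≤ k' * c) (hN : 0 < N)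
    (hY : c * N ≤ Y.card) (hrest : ((N - B * n : ℕ) : ℝ) ≤ c / 4 * N) (hBn : B * n ≤ N)
    (hw : ∑ i ∈ Y, w i ≤ k0 * N) :
    ∃ b : Fin B, c / 4 * n ≤ (Y ∩ Blk h b).card ∧
      ∑ i ∈ Y ∩ Blk h b, w i ≤ k' * (Y ∩ Blk h b).card := by
  classical
  by_contra hcon
  push Not at hcon
  have hN' : (0 : ℝ) < N := by exact_mod_cast hN
  have h1 := blk_cover h Y
  have h2 : (Y.card : ℝ) ≤ ∑ b : Fin B, ((Y ∩ Blk h b).card : ℝ) + ((N - B * n : ℕ) : ℝ) := by
    exact_mod_cast h1
  -- blocks with few counted variables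
  have h3 : ∀ b : Fin B, (k' : ℝ) * ((Y ∩ Blk h b).card : ℝ) ≤
      ((∑ i ∈ Y ∩ Blk h b, w i : ℕ) : ℝ) + k' * (c / 4 * n) := by
    intro b
    by_cases hb : c / 4 * n ≤ (Y ∩ Blk h b).card
    · have h4 := hcon b hb
      have h5 : (k' : ℝ) * ((Y ∩ Blk h b).card : ℝ) ≤ ((∑ i ∈ Y ∩ Blk h b, w i : ℕ) : ℝ) := by
        exact_mod_cast h4.le
      have : 0 ≤ (k' : ℝ) * (c / 4 * n) := by positivity
      linarith
    · push Not at hb
      have h4 : (k' : ℝ) * ((Y ∩ Blk h b).card : ℝ) ≤ k' * (c / 4 * n) :=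
        mul_le_mul_of_nonneg_left hb.le (Nat.cast_nonneg _)
      have : (0 : ℝ) ≤ ((∑ i ∈ Y ∩ Blk h b, w i : ℕ) : ℝ) := Nat.cast_nonneg _
      linarith
  have h4 := Finset.sum_le_sum (fun b (_ : b ∈ (Finset.univ : Finset (Fin B))) => h3 b)
  rw [← Finset.mul_sum, Finset.sum_add_distrib, Finset.sum_const, Finset.card_univ,
    Fintype.card_fin, nsmul_eq_mul] at h4
  have h5 : ∑ b : Fin B, ((∑ i ∈ Y ∩ Blk h b, w i : ℕ) : ℝ) ≤ k0 * N := by
    have := (blk_sum h Y w).trans hw
    exact_mod_cast this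
  have h6 : (B : ℝ) * n ≤ N := by exact_mod_cast hBn
  have h7 : (k' : ℝ) * (c / 4 * ((B : ℝ) * n)) ≤ k' * (c / 4 * N) := by
    apply mul_le_mul_of_nonneg_left _ (Nat.cast_nonneg _)
    exact mul_le_mul_of_nonneg_left h6 (by positivity)
  have h8 : (B : ℝ) * (k' * (c / 4 * n)) = k' * (c / 4 * (B * n)) := by ring
  rw [h8] at h4
  have h9 : (k' : ℝ) * (c * N) ≤ k' * (∑ b : Fin B, ((Y ∩ Blk h b).card : ℝ) + c / 4 * N) := by
    apply mul_le_mul_of_nonneg_left _ (Nat.cast_nonneg _)
    linarith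
  -- k' c N ≤ k0 N + k' c N / 2, so k' c N / 2 ≤ k0 N
  have h10 : (k' : ℝ) * c * N ≤ 2 * (k0 * N) := by
    have e1 : (k' : ℝ) * (c * N) = k' * c * N := by ring
    have e2 : (k' : ℝ) * (∑ b : Fin B, ((Y ∩ Blk h b).card : ℝ) + c / 4 * N) =
      k' * ∑ b : Fin B, ((Y ∩ Blk h b).card : ℝ) + k' * c * N / 4 := by ring
    have e3 : (k' : ℝ) * (c / 4 * N) = k' * c * N / 4 := by ring
    rw [e1, e2] at h9
    rw [e3] at h7
    linarith
  -- equality case: use that some inequality is strict
  rcases Nat.eq_zero_or_pos B with hB | hB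
  · subst hB
    have h11 : (N : ℝ) ≤ c / 4 * N := by simpa using hrest
    have h12 : (Y.card : ℝ) ≤ N := by
      have := Finset.card_le_univ Y
      rw [Fintype.card_fin] at this
      exact_mod_cast this
    nlinarith
  · -- a block with many counted variables exists, and it is strict
    obtain ⟨b0, hb0⟩ : ∃ b : Fin B, c / 4 * n ≤ (Y ∩ Blk h b).card := by
      by_contra hno
      push Not at hno
      have h11 : ∑ b : Fin B, ((Y ∩ Blk h b).card : ℝ) ≤ ∑ _b : Fin B, (c / 4 * (n : ℝ)) :=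
        Finset.sum_le_sum fun b _ => (hno b).le
      rw [Finset.sum_const, Finset.card_univ, Fintype.card_fin, nsmul_eq_mul] at h11
      have h12 : (B : ℝ) * (c / 4 * n) = c / 4 * (B * n) := by ring
      rw [h12] at h11
      have h13 : c / 4 * ((B : ℝ) * n) ≤ c / 4 * N := mul_le_mul_of_nonneg_left h6 (by positivity)
      nlinarith
    have hs := hcon b0 hb0
    have h11 : (k' : ℝ) * ((Y ∩ Blk h b0).card : ℝ) + 1 ≤
        ((∑ i ∈ Y ∩ Blk h b0, w i : ℕ) : ℝ) := by exact_mod_cast hs
    have h12 : (k' : ℝ) * ((Y ∩ Blk h b0).card : ℝ) + 1 ≤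
        ((∑ i ∈ Y ∩ Blk h b0, w i : ℕ) : ℝ) + k' * (c / 4 * n) := by
      have : 0 ≤ (k' : ℝ) * (c / 4 * n) := by positivity
      linarith
    have h13 : ∑ b : Fin B, (k' : ℝ) * ((Y ∩ Blk h b).card : ℝ) <
        ∑ b : Fin B, (((∑ i ∈ Y ∩ Blk h b, w i : ℕ) : ℝ) + k' * (c / 4 * n)) :=
      Finset.sum_lt_sum (fun b _ => h3 b) ⟨b0, Finset.mem_univ _, by linarith⟩
    rw [← Finset.mul_sum, Finset.sum_add_distrib, Finset.sum_const, Finset.card_univ,
      Fintype.card_fin, nsmul_eq_mul, h8] at h13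
    have h14 : 2 * ((k0 : ℝ) * N) ≤ k' * c * N := by
      have := mul_le_mul_of_nonneg_right hk' hN'.le
      linarith
    have e1 : (k' : ℝ) * (c * N) = k' * c * N := by ring
    have e2 : (k' : ℝ) * (∑ b : Fin B, ((Y ∩ Blk h b).card : ℝ) + c / 4 * N) =
      k' * ∑ b : Fin B, ((Y ∩ Blk h b).card : ℝ) + k' * c * N / 4 := by ring
    have e3 : (k' : ℝ) * (c / 4 * N) = k' * c * N / 4 := by ring
    rw [e1, e2] at h9
    rw [e3] at h7
    linarith

variable (K : (Fin m → Bool) → (Fin n → Bool) → Fin u → Bool)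

open Classical in
/-- words with a bad seed are rare in the language -/
lemma card_bad {t E : ℕ} (h : Dims N B n m u)
    (hb : (Finset.univ.filter (fun a : Fin m → Bool => Bad K t a)).card * 2 ^ E ≤ 2 ^ m) :
    (Finset.univ.filter (fun y : Fin N → Bool => Right K h y ∧ Bad K t (sa h y))).card *
      2 ^ E ≤ (Finset.univ.filter (fun y : Fin N → Bool => Right K h y)).card := by
  have h1 := card_right K h (fun a => Bad K t a)
  have h2 := card_seed h (Finset.univ.filter (fun a => Bad K t a))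
  have h4 := card_right K h (fun _ => True)
  simp only [and_true, Finset.filter_true] at h4
  rw [Finset.card_univ, Fintype.card_fun, Fintype.card_bool, Fintype.card_fin] at h4
  have h5 : (Finset.univ.filter (fun y : Fin N → Bool => sa h y ∈
      Finset.univ.filter (fun a => Bad K t a))).card =
      (Finset.univ.filter (fun y : Fin N → Bool => Bad K t (sa h y))).card := by
    congr 1
    ext y
    simp
  rw [h5, ← h1] at h2
  generalize (Finset.univ.filter (fun y : Fin N → Bool => Right K h y ∧ Bad K t (sa h y))).card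
    = X at *
  generalize (Finset.univ.filter (fun y : Fin N → Bool => Right K h y)).card = Z at *
  generalize (Finset.univ.filter (fun a : Fin m → Bool => Bad K t a)).card
    = Bd at *
  -- X 2^(Bu) 2^m = Bd 2^N,  Z 2^(Bu) = 2^N,  Bd 2^E ≤ 2^m
  have h6 : X * 2 ^ E * (2 ^ (B * u) * 2 ^ m) ≤ Z * (2 ^ (B * u) * 2 ^ m) := by
    calc X * 2 ^ E * (2 ^ (B * u) * 2 ^ m) = (X * 2 ^ (B * u) * 2 ^ m) * 2 ^ E := by ring
      _ = 2 ^ N * (Bd * 2 ^ E) := by rw [h2]; ring
      _ ≤ 2 ^ N * 2 ^ m := Nat.mul_le_mul_left _ hb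
      _ = Z * (2 ^ (B * u) * 2 ^ m) := by rw [← h4]; ring
  exact Nat.le_of_mul_le_mul_right h6 (by positivity)

open Classical in
/-- a dense slice -/
lemma exists_slice (h : Dims N B n m u) (b : Fin B) (Y : Finset (Fin N)) (hY : Y ⊆ Blk h b)
    (G : Finset (Fin N → Bool)) (hG : ∀ y ∈ G, Right K h y) {T : ℝ} (hT0 : 0 < T)
    (hT : T * (((Finset.univ.filter (fun y : Fin N → Bool => Right K h y)).card : ℝ) * 2 ^ u) <
      G.card * 2 ^ Y.card) :
    ∃ base : {i // i ∉ Y} → Bool,
      T ≤ ((Finset.univ.filter (fun x : Fin Y.card → Bool => paste Y base x ∈ G)).card : ℝ) := by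
  by_contra hcon
  push Not at hcon
  obtain ⟨A, hA⟩ : ∃ A : Finset ({i // i ∉ Y} → Bool), A = Finset.univ.filter
    (fun base => ∃ x : Fin Y.card → Bool, paste Y base x ∈ G) := ⟨_, rfl⟩
  have h1 : (G.card : ℝ) ≤ A.card * T := by
    rw [card_slices Y G, hA, Finset.card_filter]
    push_cast
    rw [Finset.sum_mul]
    refine Finset.sum_le_sum fun base _ => ?_
    by_cases hb : ∃ x : Fin Y.card → Bool, paste Y base x ∈ G
    · rw [if_pos hb, one_mul]
      exact (hcon base).le
    · rw [if_neg hb, zero_mul]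
      push Not at hb
      have : (Finset.univ.filter (fun x : Fin Y.card → Bool => paste Y base x ∈ G)) = ∅ :=
        Finset.filter_eq_empty_iff.2 fun x _ => hb x
      rw [this]
      simp
  have h2 : A.card * 2 ^ Y.card ≤
      (Finset.univ.filter (fun y : Fin N → Bool => RightBut K h b y)).card := by
    rw [card_slices Y, hA, Finset.card_filter, Finset.sum_mul]
    refine Finset.sum_le_sum fun base _ => ?_
    by_cases hb : ∃ x : Fin Y.card → Bool, paste Y base x ∈ G
    · rw [if_pos hb, one_mul]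
      obtain ⟨x0, hx0⟩ := hb
      have h3 : RightBut K h b (paste Y base x0) := by
        have := hG _ hx0
        rw [right_iff] at this
        intro b' _
        rw [this]
      have : (Finset.univ.filter (fun x : Fin Y.card → Bool => paste Y base x ∈
          Finset.univ.filter (fun y : Fin N → Bool => RightBut K h b y))) = Finset.univ := by
        apply Finset.filter_true_of_mem
        intro x _
        refine Finset.mem_filter.2 ⟨Finset.mem_univ _, rightBut_congr K h b ?_ h3⟩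
        intro i hi
        have : i ∉ Y := fun hc => hi (hY hc)
        unfold paste
        rw [dif_neg this, dif_neg this]
      rw [this, Finset.card_univ, Fintype.card_fun, Fintype.card_bool, Fintype.card_fin]
    · rw [if_neg hb, zero_mul]
      exact Nat.zero_le _
  have h3 := h2.trans (card_rightBut K h b)
  have h4 : (A.card : ℝ) * 2 ^ Y.card ≤
      ((Finset.univ.filter (fun y : Fin N → Bool => Right K h y)).card : ℝ) * 2 ^ u := by
    exact_mod_cast h3
  have h5 : (G.card : ℝ) * 2 ^ Y.card ≤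
      T * (((Finset.univ.filter (fun y : Fin N → Bool => Right K h y)).card : ℝ) * 2 ^ u) := by
    calc (G.card : ℝ) * 2 ^ Y.card ≤ (A.card * T) * 2 ^ Y.card :=
          mul_le_mul_of_nonneg_right h1 (by positivity)
      _ = T * (A.card * 2 ^ Y.card) := by ring
      _ ≤ _ := mul_le_mul_of_nonneg_left h4 hT0.le
  linarith

end Pool.Agent.LP44
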